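import Pool.Agent.NSE32.Sel
import Pool.Agent.OSM.Sample
import Pool.Agent.OSM.DenseR

/-!
# NSE32/Arr: typical initial samples contain arrangements; the mass bound of step (a)

`fst h y` = the first `m` of the `j` samples. `Arrd CC Z`: no selection of one sample of each of the
`n0` blocks (of length `ℓ`) is in `CC`, or some selection is in the exceptional set `Z` of the final
event. `CC x y` stands for: the committing event (at level `n0`) holds for `merge n0 x y`.

`bad_bound`. By `Mx.pr_marg` (`OSM/Mx`, with `l = n0 * ℓ`, `l' = j`, `g` = the indicator) the sum is the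
one for `j = n0 * ℓ`, which is at most the sum of the masses of the two events
(`if A ∨ B then p else 0 ≤ (if A then p else 0) + (if B then p else 0)`). The second is at most `1 / 100`
by `exc_bound` (`OSM/Sample`). The first: `sample` (`OSM/Sample`) with `Exc`:
`∑ a, if P.x a ∈ Exc then P.w a else 0 = ∑ x ∈ Exc, (∑ a, if P.x a = x then P.w a else 0) ≤
Exc.card * (1 / q') / card X = dens Exc / q' ≤ 1 / 100`; `hCC` of `sample`: for a state `a` apply
`dens_dense` (`OSM/DenseR`) to `P.f a` to get the set `S` of the dense strings of density at least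
`q / 2` and `hCC`. So the total is at most `1 / 50 + 1 / 100 ≤ 1 / 5`.

`mass_lt`. `∑ x, ∑ y, (if append x y ∈ E then P.pr t x y else 0) ≤ E.card * ((1 / q') / card Y ^ k *
((1 / q) / card Y) ^ t) = dens E / (q' * q ^ t)` (`Mx.pr_le`; `Fin.appendEquiv` or an injection for the
count of the `(x, y)`); `c2 / (q' * q ^ t) ≤ c`.

`mass_map`: by `Mx.pr_map` the left side is `∑ x, ∑ y, if .. then P.pr t x y else 0`, each nonzero
term of which occurs in the sum of `mass_lt`.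
-/

set_option autoImplicit false

namespace Pool.Agent.NSE32

open Finset Pool.Agent.OSM
open scoped Classical

/-- The first `m` samples. -/
def fst {Y : Type} {m j : ℕ} (h : m ≤ j) (y : Fin j → Y) : Fin m → Y := fun i => y (i.castLE h)

/-- The bad initial samples. -/
def Arrd {Y : Type} {k n0 ℓ : ℕ} (CC : (Fin k → Y) → (Fin n0 → Y) → Prop)
    (Z : Finset (Fin n0 → Y)) {j : ℕ} (h : n0 * ℓ ≤ j) (x : Fin k → Y) (y : Fin j → Y) : Prop :=
  (¬ ∃ r : Fin n0 → Fin ℓ, CC x (sel (fst h y) r)) ∨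
    ∃ r : Fin n0 → Fin ℓ, merge n0 x (sel (fst h y) r) ∈ Z

theorem bad_bound {Y Y0 : Type} [Fintype Y] [Nonempty Y] [Fintype Y0] [Nonempty Y0]
    {k n0 ℓ : ℕ} (hk : k ≤ n0) {P : Mx (Fin k → Y) Y} {q q' : ℝ} (hq : 0 < q) (hq' : 0 < q')
    (hP : Bd (1 / q) (1 / q') P) {ρ : Y → Y0} (hρ : EqFib ρ) (Exc : Finset (Fin k → Y))
    (hExc : OSM.dens Exc ≤ q' / 100) (hℓ : 4 * Fintype.card Y0 * (n0 + 5) ≤ ℓ)
    (CC : (Fin k → Y) → (Fin n0 → Y) → Prop)
    (hCC : ∀ x, x ∉ Exc → ∀ S : Finset Y0, q / 2 ≤ OSM.dens S → ∃ s : Fin n0 → Y0,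
      (∀ i, s i ∈ S) ∧ ∀ y : Fin n0 → Y, (∀ i, ρ (y i) = s i) → CC x y)
    (Z : Finset (Fin n0 → Y)) (hZ : (ℓ : ℝ) ^ n0 * OSM.dens Z ≤ q' * q ^ n0 / 100) {j : ℕ}
    (hj : n0 * ℓ ≤ j) :
    (∑ x, ∑ y : Fin j → Y, if Arrd CC Z hj x y then P.pr j x y else 0) ≤ 1 / 5 := by
  have hsample := sample hP.ok ρ Exc
    (by
      refine (exc_mass hP.ok hP.x Exc).trans ?_
      calc (1 / q') * OSM.dens Exc ≤ (1 / q') * (q' / 100) :=
            mul_le_mul_of_nonneg_left hExc (by positivity)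
        _ = 1 / 100 := by field_simp)
    hℓ CC
    (by
      intro a ha
      obtain ⟨s, hs1, hs2⟩ := hCC (P.x a) ha
        (univ.filter fun s : Y0 =>
          1 / (4 * (Fintype.card Y0 : ℝ)) ≤ ∑ y, if ρ y = s then P.f a y else 0)
        (by
          refine le_trans (by linarith) (dens_dense hρ hq (P.f a) (hP.ok.f_nonneg a)
            (hP.ok.f_sum a) (hP.f a)))
      exact ⟨s, fun i => (Finset.mem_filter.1 (hs1 i)).2, hs2⟩)
  have hexc := exc_bound hk hP.ok hq hq' hP.f (fun x => by convert hP.x x) Z hZ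
  have hmarg := Mx.pr_marg hP.ok hj (fun x (y : Fin (n0 * ℓ) → Y) =>
    if (¬ ∃ r : Fin n0 → Fin ℓ, CC x (sel y r)) ∨
      ∃ r : Fin n0 → Fin ℓ, merge n0 x (sel y r) ∈ Z then (1 : ℝ) else 0)
  have h1 : (∑ x, ∑ y : Fin j → Y, if Arrd CC Z hj x y then P.pr j x y else 0) =
      ∑ x, ∑ y : Fin (n0 * ℓ) → Y, P.pr (n0 * ℓ) x y *
        (if (¬ ∃ r : Fin n0 → Fin ℓ, CC x (sel y r)) ∨
          ∃ r : Fin n0 → Fin ℓ, merge n0 x (sel y r) ∈ Z then (1 : ℝ) else 0) := by
    rw [← hmarg]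
    refine Finset.sum_congr rfl fun x _ => Finset.sum_congr rfl fun y _ => ?_
    have h2 : Arrd CC Z hj x y ↔ ((¬ ∃ r : Fin n0 → Fin ℓ, CC x (sel (fun i => y (i.castLE hj)) r)) ∨
        ∃ r : Fin n0 → Fin ℓ, merge n0 x (sel (fun i => y (i.castLE hj)) r) ∈ Z) := Iff.rfl
    by_cases h : Arrd CC Z hj x y
    · rw [if_pos h, if_pos (h2.1 h), mul_one]
    · rw [if_neg h, if_neg (fun h' => h (h2.2 h')), mul_zero]
  have h3 : (∑ x, ∑ y : Fin (n0 * ℓ) → Y, P.pr (n0 * ℓ) x y *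
        (if (¬ ∃ r : Fin n0 → Fin ℓ, CC x (sel y r)) ∨
          ∃ r : Fin n0 → Fin ℓ, merge n0 x (sel y r) ∈ Z then (1 : ℝ) else 0)) ≤
      (∑ x, ∑ y : Fin (n0 * ℓ) → Y,
        if ∃ r : Fin n0 → Fin ℓ, CC x (sel y r) then 0 else P.pr (n0 * ℓ) x y) +
      ∑ x, ∑ y : Fin (n0 * ℓ) → Y,
        if ∃ r : Fin n0 → Fin ℓ, merge n0 x (sel y r) ∈ Z then P.pr (n0 * ℓ) x y else 0 := by
    rw [← Finset.sum_add_distrib]
    refine Finset.sum_le_sum fun x _ => ?_
    rw [← Finset.sum_add_distrib]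
    refine Finset.sum_le_sum fun y _ => ?_
    have h0 := Mx.pr_nonneg hP.ok (n0 * ℓ) x y
    by_cases hA : ∃ r : Fin n0 → Fin ℓ, CC x (sel y r)
    · rw [if_pos hA, zero_add]
      by_cases hB : ∃ r : Fin n0 → Fin ℓ, merge n0 x (sel y r) ∈ Z
      · rw [if_pos hB, if_pos (Or.inr hB), mul_one]
      · rw [if_neg hB, if_neg (fun h => h.elim (fun h => h hA) hB), mul_zero]
    · rw [if_neg hA, if_pos (Or.inl hA), mul_one]
      have : (0 : ℝ) ≤ if ∃ r : Fin n0 → Fin ℓ, merge n0 x (sel y r) ∈ Z then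
          P.pr (n0 * ℓ) x y else 0 := by
        split_ifs
        · exact h0
        · exact le_rfl
      linarith
  rw [h1]
  linarith

theorem mass_lt {Y : Type} [Fintype Y] [Nonempty Y] {k t : ℕ} {P : Mx (Fin k → Y) Y} {q q' : ℝ}
    (hq : 0 < q) (hq' : 0 < q') (hP : Bd (1 / q) (1 / q') P) (E : Finset (Fin (k + t) → Y))
    {c c2 : ℝ} (hE : OSM.dens E < c2) (hc : c2 ≤ c * (q' * q ^ t)) :
    (∑ x, ∑ y : Fin t → Y, if Fin.append x y ∈ E then P.pr t x y else 0) < c := by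
  have hY : (0 : ℝ) < Fintype.card Y := by exact_mod_cast Fintype.card_pos
  have hcount : (∑ x : Fin k → Y, ∑ y : Fin t → Y,
      if Fin.append x y ∈ E then (1 : ℝ) else 0) ≤ (E.card : ℝ) := by
    rw [← Fintype.sum_prod_type' (fun (x : Fin k → Y) (y : Fin t → Y) =>
      (if Fin.append x y ∈ E then (1 : ℝ) else 0)), ← Finset.sum_filter, Finset.sum_const,
      nsmul_eq_mul, mul_one]
    have h : ((Finset.univ : Finset ((Fin k → Y) × (Fin t → Y))).filter
        (fun p => Fin.append p.1 p.2 ∈ E)).card ≤ E.card := by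
      apply Finset.card_le_card_of_injOn
        (fun p : (Fin k → Y) × (Fin t → Y) => Fin.append p.1 p.2)
      · intro p hp
        exact (Finset.mem_filter.1 (Finset.mem_coe.1 hp)).2
      · rintro ⟨x, y⟩ _ ⟨x', y'⟩ _ hpp
        have hpp' : Fin.append x y = Fin.append x' y' := hpp
        have hx : x = x' := by
          funext i
          have h3 := congrFun hpp' (Fin.castAdd t i)
          rwa [Fin.append_left, Fin.append_left] at h3
        have hy : y = y' := by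
          funext i
          have h3 := congrFun hpp' (Fin.natAdd k i)
          rwa [Fin.append_right, Fin.append_right] at h3
        rw [hx, hy]
    exact_mod_cast h
  obtain ⟨B, hB⟩ : ∃ B : ℝ, B = (1 / q') / (Fintype.card (Fin k → Y) : ℝ) *
      ((1 / q) / (Fintype.card Y : ℝ)) ^ t := ⟨_, rfl⟩
  have hB0 : 0 ≤ B := by rw [hB]; positivity
  have h1 : (∑ x, ∑ y : Fin t → Y, if Fin.append x y ∈ E then P.pr t x y else 0) ≤
      ∑ x : Fin k → Y, ∑ y : Fin t → Y, (if Fin.append x y ∈ E then (1 : ℝ) else 0) * B := by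
    refine Finset.sum_le_sum fun x _ => Finset.sum_le_sum fun y _ => ?_
    split_ifs
    · rw [one_mul, hB]
      exact Mx.pr_le hP.ok hP.f hP.x t x y
    · rw [zero_mul]
  have h2 : (∑ x : Fin k → Y, ∑ y : Fin t → Y,
      (if Fin.append x y ∈ E then (1 : ℝ) else 0) * B) ≤ E.card * B := by
    simp only [← Finset.sum_mul]
    exact mul_le_mul_of_nonneg_right hcount hB0
  have hqq : 0 < q' * q ^ t := mul_pos hq' (pow_pos hq t)
  have h3 : (E.card : ℝ) * B = OSM.dens E / (q' * q ^ t) := by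
    rw [hB]
    unfold OSM.dens
    rw [Fintype.card_fun, Fintype.card_fun, Fintype.card_fin, Fintype.card_fin, Nat.cast_pow,
      Nat.cast_pow, div_pow, one_div_pow, pow_add]
    have hYk : (Fintype.card Y : ℝ) ^ k ≠ 0 := (pow_pos hY k).ne'
    have hYn : (Fintype.card Y : ℝ) ^ t ≠ 0 := (pow_pos hY t).ne'
    have hqn : q ^ t ≠ 0 := (pow_pos hq t).ne'
    field_simp
  calc _ ≤ _ := h1
    _ ≤ _ := h2
    _ = _ := h3
    _ < c2 / (q' * q ^ t) := div_lt_div_of_pos_right hE hqq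
    _ ≤ c := by rwa [div_le_iff₀ hqq]

theorem mass_map {Y Yn : Type} [Fintype Y] [Nonempty Y] [Fintype Yn] {k t : ℕ}
    {P : Mx (Fin k → Y) Y} {q q' : ℝ} (hq : 0 < q) (hq' : 0 < q') (hP : Bd (1 / q) (1 / q') P)
    (ψ : Y → Yn) (E : Finset (Fin (k + t) → Y)) {c c2 : ℝ} (hE : OSM.dens E < c2)
    (hc : c2 ≤ c * (q' * q ^ t)) (x0 : Fin k → Yn) (y0 : Fin t → Yn)
    (h : ∀ x y, (∀ i, ψ (x i) = x0 i) → (∀ i, ψ (y i) = y0 i) → 0 < P.pr t x y →
      Fin.append x y ∈ E) :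
    (P.map (fun x i => ψ (x i)) ψ).pr t x0 y0 < c := by
  refine lt_of_le_of_lt ?_ (mass_lt hq hq' hP E hE hc)
  rw [Mx.pr_map hP.ok]
  refine Finset.sum_le_sum fun x _ => Finset.sum_le_sum fun y _ => ?_
  have h0 := Mx.pr_nonneg hP.ok t x y
  by_cases hc1 : (fun i => ψ (x i)) = x0 ∧ (fun i => ψ (y i)) = y0
  · rw [if_pos hc1]
    rcases h0.lt_or_eq with h1 | h1
    · rw [if_pos (h x y (congrFun hc1.1) (congrFun hc1.2) h1)]
    · rw [← h1]
      split_ifs <;> exact le_rfl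
  · rw [if_neg hc1]
    split_ifs
    · exact h0
    · exact le_rfl

end Pool.Agent.NSE32
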