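import Pool.Agent.NSE32.Defs

/-!
# NSE32/Avg: the average of finitely many mixtures

Proofs. All sums over `(avg W P).ι = Σ ω : {ω // ω ∈ W}, (P ω).ι` are computed with
`Fintype.sum_sigma` and `Finset.sum_coe_sort`/`Finset.sum_attach` (for a function `F` on `Ω`:
`∑ ω : {ω // ω ∈ W}, F ω.1 = ∑ ω ∈ W, F ω`, `Finset.sum_coe_sort W F`).
* `pr_avg`: `(avg W P).pr j x y = ∑ ω ∈ W, ∑ a, if (P ω).x a = x then ((P ω).w a / W.card) * ∏ .. else 0`.
* `avg_bd`: `ok`: weights nonnegative, sum `= ∑ ω ∈ W, 1 / W.card = 1`; `f` clear; `x`: the sum is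
  `(∑ ω ∈ W, ∑ a, if (P ω).x a = x then (P ω).w a else 0) / W.card ≤ K' / card X`.
* `pr_ac`, `pr_le_card`: a sum of nonnegative numbers.
* `kl_avg_nonneg`: `d_nonneg` termwise (`OSM/KL`), with `pr_ac`.
* `klu_avg`: termwise identity: for nonnegative `p ω` (`ω ∈ W`) with `∑ ω ∈ W, p ω = n * P`,
  `n = W.card > 0`, and `u > 0`: `∑ ω ∈ W, d (p ω) u = n * d P u + ∑ ω ∈ W, d (p ω) P`. If `P = 0` then
  all `p ω = 0` and both sides are `n * u`. If `P > 0`: for `p ω > 0`,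
  `log (p ω / u) = log (p ω / P) + log (P / u)` (`Real.log_div`), for `p ω = 0` both products vanish, so
  `∑ p ω * log (p ω / u) = ∑ p ω * log (p ω / P) + n * P * log (P / u)`; the linear terms:
  `∑ (u - p ω) = n u - n P` and `n (u - P) + ∑ (P - p ω) = n u - n P`. Then sum over `x`, `y`
  (`Finset.sum_comm`).
-/

set_option autoImplicit false

namespace Pool.Agent.NSE32

open Finset Pool.Agent.OSM
open scoped Classical

variable {X Y Ω : Type} {W : Finset Ω} {P : Ω → Mx X Y}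

private theorem sum_avg (F : (Σ ω : {ω // ω ∈ W}, (P ω.1).ι) → ℝ) :
    ∑ a, F a = ∑ ω : {ω // ω ∈ W}, ∑ b, F ⟨ω, b⟩ := Fintype.sum_sigma F

theorem pr_avg (j : ℕ) (x : X) (y : Fin j → Y) :
    (avg W P).pr j x y = (∑ ω ∈ W, (P ω).pr j x y) / (W.card : ℝ) := by
  unfold Mx.pr
  rw [show (∑ a : (avg W P).ι, if (avg W P).x a = x then (avg W P).w a * ∏ i, (avg W P).f a (y i)
      else 0) = ∑ a : (Σ ω : {ω // ω ∈ W}, (P ω.1).ι), if (P a.1.1).x a.2 = x then
        (P a.1.1).w a.2 / (W.card : ℝ) * ∏ i, (P a.1.1).f a.2 (y i) else 0 from rfl]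
  rw [sum_avg]
  rw [Finset.sum_coe_sort W (fun ω => ∑ b, if (P ω).x b = x then
        (P ω).w b / (W.card : ℝ) * ∏ i, (P ω).f b (y i) else 0)]
  rw [Finset.sum_div]
  refine sum_congr rfl fun ω _ => ?_
  rw [Finset.sum_div]
  refine sum_congr rfl fun b _ => ?_
  split_ifs
  · ring
  · rw [zero_div]

private theorem card_pos' (hW : W.Nonempty) : (0 : ℝ) < W.card := by
  exact_mod_cast Finset.card_pos.2 hW

private theorem avg_ok [Fintype Y] (hW : W.Nonempty) (h : ∀ ω ∈ W, (P ω).Ok) :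
    (avg W P).Ok := by
  have hc := card_pos' hW
  refine ⟨?_, ?_, ?_, ?_⟩
  · rintro ⟨ω, a⟩
    exact div_nonneg ((h ω.1 ω.2).w_nonneg a) hc.le
  · rw [show (∑ a : (avg W P).ι, (avg W P).w a) = ∑ a : (Σ ω : {ω // ω ∈ W}, (P ω.1).ι),
        (P a.1.1).w a.2 / (W.card : ℝ) from rfl]
    rw [sum_avg]
    have h1 : ∀ ω : {ω // ω ∈ W}, ∑ b, (P ω.1).w b / (W.card : ℝ) = 1 / (W.card : ℝ) := by
      intro ω
      rw [← Finset.sum_div, (h ω.1 ω.2).w_sum]
    rw [Finset.sum_congr rfl (fun ω _ => h1 ω), Finset.sum_const, Finset.card_univ,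
      Fintype.card_coe, nsmul_eq_mul, mul_one_div, div_self hc.ne']
  · rintro ⟨ω, a⟩ y
    exact (h ω.1 ω.2).f_nonneg a y
  · rintro ⟨ω, a⟩
    exact (h ω.1 ω.2).f_sum a

theorem avg_bd [Fintype X] [Fintype Y] (hW : W.Nonempty) {K K' : ℝ}
    (h : ∀ ω ∈ W, Bd K K' (P ω)) : Bd K K' (avg W P) := by
  have hc := card_pos' hW
  refine ⟨avg_ok hW (fun ω hω => (h ω hω).ok), ?_, ?_⟩
  · rintro ⟨ω, a⟩ y
    exact (h ω.1 ω.2).f a y
  · intro x
    rw [show (∑ a : (avg W P).ι, if (avg W P).x a = x then (avg W P).w a else 0) =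
        ∑ a : (Σ ω : {ω // ω ∈ W}, (P ω.1).ι), if (P a.1.1).x a.2 = x then
          (P a.1.1).w a.2 / (W.card : ℝ) else 0 from rfl]
    rw [sum_avg]
    have h1 : ∀ ω : {ω // ω ∈ W}, (∑ b, if (P ω.1).x b = x then
        (P ω.1).w b / (W.card : ℝ) else 0) ≤ (K' / (Fintype.card X : ℝ)) / (W.card : ℝ) := by
      intro ω
      have h2 := (h ω.1 ω.2).x x
      have h3 : (∑ b, if (P ω.1).x b = x then (P ω.1).w b / (W.card : ℝ) else 0) =
          (∑ b, if (P ω.1).x b = x then (P ω.1).w b else 0) / (W.card : ℝ) := by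
        rw [Finset.sum_div]
        refine sum_congr rfl fun b _ => ?_
        split_ifs
        · rfl
        · rw [zero_div]
      rw [h3]
      exact div_le_div_of_nonneg_right h2 hc.le
    refine (Finset.sum_le_sum (fun ω _ => h1 ω)).trans (le_of_eq ?_)
    rw [Finset.sum_const, Finset.card_univ, Fintype.card_coe, nsmul_eq_mul]
    exact mul_div_cancel₀ _ hc.ne'

private theorem card_mul_pr (hW : W.Nonempty) (j : ℕ) (x : X) (y : Fin j → Y) :
    (W.card : ℝ) * (avg W P).pr j x y = ∑ ω ∈ W, (P ω).pr j x y := by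
  rw [pr_avg, mul_div_cancel₀ _ (card_pos' hW).ne']

theorem pr_le_card [Fintype Y] (hW : W.Nonempty) (h : ∀ ω ∈ W, (P ω).Ok) {ω : Ω} (hω : ω ∈ W)
    (j : ℕ) (x : X) (y : Fin j → Y) :
    (P ω).pr j x y ≤ (W.card : ℝ) * (avg W P).pr j x y := by
  rw [card_mul_pr hW]
  exact Finset.single_le_sum (f := fun ω => (P ω).pr j x y)
    (fun ω' hω' => Mx.pr_nonneg (h ω' hω') j x y) hω

theorem pr_ac [Fintype Y] (hW : W.Nonempty) (h : ∀ ω ∈ W, (P ω).Ok) {ω : Ω} (hω : ω ∈ W)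
    (j : ℕ) (x : X) (y : Fin j → Y) (h0 : (avg W P).pr j x y = 0) : (P ω).pr j x y = 0 := by
  have h1 := pr_le_card hW h hω j x y
  rw [h0, mul_zero] at h1
  exact le_antisymm h1 (Mx.pr_nonneg (h ω hω) j x y)

theorem kl_avg_nonneg [Fintype X] [Fintype Y] (hW : W.Nonempty) (h : ∀ ω ∈ W, (P ω).Ok) {ω : Ω}
    (hω : ω ∈ W) (l : ℕ) : 0 ≤ kl (P ω) (avg W P) l := by
  unfold kl
  exact sum_nonneg fun x _ => sum_nonneg fun y _ => d_nonneg (Mx.pr_nonneg (h ω hω) _ _ _)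
    (Mx.pr_nonneg (avg_ok hW h) _ _ _) (pr_ac hW h hω l x y)

private theorem d_avg (p : Ω → ℝ) {n Q u : ℝ} (hp : ∀ ω ∈ W, 0 ≤ p ω) (hn : n = W.card)
    (hn0 : 0 < n) (hs : ∑ ω ∈ W, p ω = n * Q) (hu : 0 < u) :
    ∑ ω ∈ W, d (p ω) u = n * d Q u + ∑ ω ∈ W, d (p ω) Q := by
  have hQ : 0 ≤ Q := by
    have h1 : 0 ≤ n * Q := hs ▸ Finset.sum_nonneg hp
    exact nonneg_of_mul_nonneg_right h1 hn0
  have key : ∀ ω ∈ W, p ω * Real.log (p ω / u) =
      p ω * Real.log (p ω / Q) + p ω * Real.log (Q / u) := by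
    intro ω hω
    rcases (hp ω hω).eq_or_lt with h | h
    · rw [← h]
      ring
    · have hQ0 : 0 < Q := by
        rcases hQ.eq_or_lt with h2 | h2
        · exfalso
          rw [← h2, mul_zero] at hs
          have h3 := (Finset.sum_eq_zero_iff_of_nonneg hp).1 hs ω hω
          linarith
        · exact h2
      rw [Real.log_div h.ne' hu.ne', Real.log_div h.ne' hQ0.ne', Real.log_div hQ0.ne' hu.ne']
      ring
  unfold d
  have e1 : ∑ ω ∈ W, (p ω * Real.log (p ω / u) + u - p ω) =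
      ∑ ω ∈ W, p ω * Real.log (p ω / Q) + (∑ ω ∈ W, p ω) * Real.log (Q / u) + n * u -
        ∑ ω ∈ W, p ω := by
    rw [Finset.sum_sub_distrib, Finset.sum_add_distrib, Finset.sum_congr rfl key,
      Finset.sum_add_distrib, ← Finset.sum_mul, Finset.sum_const, nsmul_eq_mul, hn]
  have e2 : ∑ ω ∈ W, (p ω * Real.log (p ω / Q) + Q - p ω) =
      ∑ ω ∈ W, p ω * Real.log (p ω / Q) + n * Q - ∑ ω ∈ W, p ω := by
    rw [Finset.sum_sub_distrib, Finset.sum_add_distrib, Finset.sum_const, nsmul_eq_mul, hn]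
  rw [e1, e2, hs]
  ring

theorem klu_avg [Fintype X] [Fintype Y] [Nonempty X] [Nonempty Y] (hW : W.Nonempty)
    (h : ∀ ω ∈ W, (P ω).Ok) (l : ℕ) :
    ∑ ω ∈ W, klu (P ω) l =
      (W.card : ℝ) * klu (avg W P) l + ∑ ω ∈ W, kl (P ω) (avg W P) l := by
  unfold klu kl
  have hX : 0 < (Fintype.card X : ℝ) := by exact_mod_cast Fintype.card_pos
  have hY : 0 < (Fintype.card Y : ℝ) := by exact_mod_cast Fintype.card_pos
  rw [Finset.sum_comm, Finset.sum_comm (s := W) (t := univ)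
    (f := fun ω x => ∑ y : Fin l → Y, d ((P ω).pr l x y) ((avg W P).pr l x y)),
    Finset.mul_sum, ← Finset.sum_add_distrib]
  refine sum_congr rfl fun x _ => ?_
  rw [Finset.sum_comm, Finset.sum_comm (s := W) (t := univ)
    (f := fun ω (y : Fin l → Y) => d ((P ω).pr l x y) ((avg W P).pr l x y)),
    Finset.mul_sum, ← Finset.sum_add_distrib]
  refine sum_congr rfl fun y _ => ?_
  exact d_avg (fun ω => (P ω).pr l x y) (fun ω hω => Mx.pr_nonneg (h ω hω) l x y) rfl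
    (card_pos' hW) (card_mul_pr hW l x y).symm (by positivity)

end Pool.Agent.NSE32
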