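import Pool.Agent.NSE32.Defs

/-!
# NSE32/Inc: increments of the relative entropy

Proofs.
* `kl_inc`: `kl P Q (j + 1) = ∑ x, ∑ y, ∑ z, d ..` by `sum_snoc` (`OSM/Mx`), subtract.
* `dl_nonneg`: `d_logsum` (`OSM/KL`) with `Mx.pr_succ`.
* `dl_bad`. Write `p z = P.pr (j+1) x (snoc y z)`, `r z = Q.pr (j+1) x (snoc y z)`,
  `A = P.pr j x y = ∑ z, p z`, `B = Q.pr j x y = ∑ z, r z` (`Mx.pr_succ`). If `B = 0` then all `r z = 0`
  (nonnegative) and the left side is `0 ≤ 7 * 0`; if `A = 0` the left side is `0` and the right side is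
  nonnegative (`dl_nonneg`). If `A, B > 0`: defect of the log sum inequality
  `dl = ∑ z, d (p z) (A / B * r z)`: indeed for `p z > 0` (so `r z > 0`)
  `p log (p / r) - p log (A / B) = p log (p / (A / B * r))`, and `∑ (A / B * r z - p z) = 0 `,
  while `∑ (r z - p z) - (B - A) = 0` (see the private `d_defect` in `OSM/KL.lean`, copy it). All terms
  are `≥ 0` (`d_nonneg`) and for the bad `z` (`p z * B ≤ 1/2 * r z * A`, i.e. `p z ≤ (A / B * r z) / 2`)
  `d_half` gives a term `≥ (A / B * r z) / 7`. So `∑_{bad} A * r z ≤ 7 * dl * B`.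
-/

set_option autoImplicit false

namespace Pool.Agent.NSE32

open Finset Pool.Agent.OSM
open scoped Classical

variable {X Y : Type} [Fintype Y] {P Q : Mx X Y}

theorem kl_inc [Fintype X] (P Q : Mx X Y) (j : ℕ) :
    kl P Q (j + 1) - kl P Q j = ∑ x, ∑ y : Fin j → Y, dl P Q j x y := by
  unfold kl dl
  rw [← Finset.sum_sub_distrib]
  refine Finset.sum_congr rfl fun x _ => ?_
  rw [sum_snoc, ← Finset.sum_sub_distrib]

private theorem inc_sums (hP : P.Ok) (hQ : Q.Ok) (j : ℕ) (x : X) (y : Fin j → Y) :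
    (∑ z, P.pr (j + 1) x (Fin.snoc y z)) = P.pr j x y ∧
      (∑ z, Q.pr (j + 1) x (Fin.snoc y z)) = Q.pr j x y :=
  ⟨Mx.pr_succ hP j x y, Mx.pr_succ hQ j x y⟩

theorem dl_nonneg (hP : P.Ok) (hQ : Q.Ok)
    (hac : ∀ (l : ℕ) (x : X) (y : Fin l → Y), Q.pr l x y = 0 → P.pr l x y = 0) (j : ℕ) (x : X)
    (y : Fin j → Y) : 0 ≤ dl P Q j x y := by
  unfold dl
  have h := d_logsum (univ : Finset Y) (fun z => P.pr (j + 1) x (Fin.snoc y z))
    (fun z => Q.pr (j + 1) x (Fin.snoc y z)) (fun z _ => Mx.pr_nonneg hP _ _ _)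
    (fun z _ => Mx.pr_nonneg hQ _ _ _) (fun z _ => hac _ _ _)
  obtain ⟨h1, h2⟩ := inc_sums hP hQ j x y
  rw [h1, h2] at h
  linarith

/-- the defect in the log sum inequality -/
private theorem inc_defect {ι : Type} (s : Finset ι) (p r : ι → ℝ) (hp : ∀ i ∈ s, 0 ≤ p i)
    (hr : ∀ i ∈ s, 0 ≤ r i) (h0 : ∀ i ∈ s, r i = 0 → p i = 0) (hR : 0 < ∑ i ∈ s, r i)
    (hP : 0 < ∑ i ∈ s, p i) :
    ∑ i ∈ s, d (p i) (r i) - d (∑ i ∈ s, p i) (∑ i ∈ s, r i) =
      ∑ i ∈ s, d (p i) ((∑ j ∈ s, p j) / (∑ j ∈ s, r j) * r i) := by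
  set P := ∑ i ∈ s, p i with hPd
  set R := ∑ i ∈ s, r i with hRd
  have hl : 0 < P / R := div_pos hP hR
  have h1 : ∀ i ∈ s, d (p i) (P / R * r i) =
      p i * Real.log (p i / r i) - p i * Real.log (P / R) + P / R * r i - p i := by
    intro i hi
    unfold d
    rcases (hp i hi).eq_or_lt with h | h
    · rw [← h]
      ring
    · have hri : 0 < r i := lt_of_le_of_ne (hr i hi) (fun h' => h.ne' (h0 i hi h'.symm))
      rw [Real.log_div h.ne' (mul_pos hl hri).ne', Real.log_div h.ne' hri.ne',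
        Real.log_mul hl.ne' hri.ne']
      ring
  rw [Finset.sum_congr rfl h1]
  unfold d
  simp only [Finset.sum_add_distrib, Finset.sum_sub_distrib, ← Finset.sum_mul, ← Finset.mul_sum]
  rw [← hPd, ← hRd, div_mul_cancel₀ P hR.ne']
  ring

/-- The samples whose conditional probability under `P` is at most half of the one under `Q`. -/
noncomputable def zb (P Q : Mx X Y) (j : ℕ) (x : X) (y : Fin j → Y) : Finset Y :=
  univ.filter fun z => P.pr (j + 1) x (Fin.snoc y z) * Q.pr j x y ≤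
    1 / 2 * Q.pr (j + 1) x (Fin.snoc y z) * P.pr j x y

theorem dl_bad (hP : P.Ok) (hQ : Q.Ok)
    (hac : ∀ (l : ℕ) (x : X) (y : Fin l → Y), Q.pr l x y = 0 → P.pr l x y = 0) (j : ℕ) (x : X)
    (y : Fin j → Y) :
    P.pr j x y * ∑ z ∈ zb P Q j x y, Q.pr (j + 1) x (Fin.snoc y z) ≤
      7 * dl P Q j x y * Q.pr j x y := by
  have hd0 := dl_nonneg hP hQ hac j x y
  obtain ⟨hA, hB⟩ := inc_sums hP hQ j x y
  have hA0 : 0 ≤ P.pr j x y := Mx.pr_nonneg hP _ _ _
  have hB0 : 0 ≤ Q.pr j x y := Mx.pr_nonneg hQ _ _ _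
  have hp0 : ∀ z, 0 ≤ P.pr (j + 1) x (Fin.snoc y z) := fun z => Mx.pr_nonneg hP _ _ _
  have hr0 : ∀ z, 0 ≤ Q.pr (j + 1) x (Fin.snoc y z) := fun z => Mx.pr_nonneg hQ _ _ _
  have hpr : ∀ z, Q.pr (j + 1) x (Fin.snoc y z) = 0 → P.pr (j + 1) x (Fin.snoc y z) = 0 :=
    fun z => hac _ _ _
  have hdl : dl P Q j x y = (∑ z, d (P.pr (j + 1) x (Fin.snoc y z))
      (Q.pr (j + 1) x (Fin.snoc y z))) - d (P.pr j x y) (Q.pr j x y) := rfl
  have hzb : zb P Q j x y = univ.filter fun z => P.pr (j + 1) x (Fin.snoc y z) * Q.pr j x y ≤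
    1 / 2 * Q.pr (j + 1) x (Fin.snoc y z) * P.pr j x y := rfl
  rw [hzb]
  generalize dl P Q j x y = dd at *
  obtain ⟨p, hp⟩ : ∃ p : Y → ℝ, ∀ z, P.pr (j + 1) x (Fin.snoc y z) = p z := ⟨_, fun z => rfl⟩
  obtain ⟨r, hr⟩ : ∃ r : Y → ℝ, ∀ z, Q.pr (j + 1) x (Fin.snoc y z) = r z := ⟨_, fun z => rfl⟩
  simp only [hp, hr] at *
  generalize P.pr j x y = A at *
  generalize Q.pr j x y = B at *
  rcases hA0.eq_or_lt with h | hApos
  · rw [← h, zero_mul]
    positivity
  rcases hB0.eq_or_lt with h | hBpos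
  · have h1 : ∀ z, r z = 0 := by
      intro z
      have h2 := (Finset.sum_eq_zero_iff_of_nonneg (fun z _ => hr0 z)).1 (hB.trans h.symm)
      exact h2 z (mem_univ z)
    have h2 : A = 0 := by
      rw [← hA]
      exact Finset.sum_eq_zero fun z _ => hpr z (h1 z)
    exact absurd h2 hApos.ne'
  have hdef := inc_defect (univ : Finset Y) p r (fun z _ => hp0 z) (fun z _ => hr0 z)
    (fun z _ => hpr z) (by rw [hB]; exact hBpos) (by rw [hA]; exact hApos)
  rw [hA, hB, ← hdl] at hdef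
  have hl : 0 < A / B := div_pos hApos hBpos
  have h1 : (A / B) * (∑ z ∈ univ.filter (fun z => p z * B ≤ 1 / 2 * r z * A), r z) ≤ 7 * dd := by
    rw [hdef, Finset.sum_filter, Finset.mul_sum, Finset.mul_sum]
    apply Finset.sum_le_sum
    intro z _
    have hnn : 0 ≤ d (p z) (A / B * r z) := by
      apply d_nonneg (hp0 z) (mul_nonneg hl.le (hr0 z))
      intro h
      rcases mul_eq_zero.1 h with h | h
      · exact absurd h hl.ne'
      · exact hpr z h
    split_ifs with hb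
    · have h1 : p z ≤ (A / B * r z) / 2 := by
        have : A / B * r z / 2 = (1 / 2 * r z * A) / B := by ring
        rw [this, le_div_iff₀ hBpos]
        exact hb
      have h2 := d_half (hp0 z) (mul_nonneg hl.le (hr0 z)) h1
      linarith
    · rw [mul_zero]
      linarith
  have h2 := mul_le_mul_of_nonneg_right h1 hB0
  have h3 : ∀ T : ℝ, (A / B) * T * B = A * T := fun T => by field_simp
  rw [h3] at h2
  exact h2

end Pool.Agent.NSE32
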