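import Pool.Agent.NSE32.Avg
import Pool.Agent.NSE32.Inc

/-!
# NSE32/ChooseJ: a sample number at which the average increment is small

Proof. Sum `up` over `ω ∈ W`, use `klu_avg` (`l = 2 r`) and `lw`:
`∑ ω ∈ W, kl (P ω) (avg W P) (2 r) ≤ W.card * 2 * ε * (2 r) = 4 * ε * r * W.card`. Telescoping
(`Finset.sum_range_sub` or `Finset.sum_Ico_consecutive`; or by contradiction and induction) with
`kl_inc`: `∑ j ∈ Ico r (2 r), ∑ ω ∈ W, ∑ x, ∑ y, dl .. = ∑ ω ∈ W, (kl .. (2 r) - kl .. r) ≤ 4 ε r W.card`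
by `kl_avg_nonneg` at `r`. There are `r` terms, so one of them is at most `4 ε W.card`
(`Finset.exists_le_of_sum_le`).
-/

set_option autoImplicit false

namespace Pool.Agent.NSE32

open Finset Pool.Agent.OSM
open scoped Classical

theorem choose_j {X Y Ω : Type} [Fintype X] [Fintype Y] [Nonempty X] [Nonempty Y] {W : Finset Ω}
    (hW : W.Nonempty) {P : Ω → Mx X Y} (h : ∀ ω ∈ W, (P ω).Ok) {a c ε : ℝ} {r : ℕ} (hr : 1 ≤ r)
    (up : ∀ ω ∈ W, klu (P ω) (2 * r) ≤ a * (2 * r) + c)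
    (lw : (a - 2 * ε) * (2 * r) + c ≤ klu (avg W P) (2 * r)) :
    ∃ j, r ≤ j ∧ j < 2 * r ∧
      ∑ x, ∑ y : Fin j → Y, ∑ ω ∈ W, dl (P ω) (avg W P) j x y ≤ 4 * ε * (W.card : ℝ) := by
  have hn : (0 : ℝ) < W.card := by exact_mod_cast hW.card_pos
  have h1 : ∑ ω ∈ W, klu (P ω) (2 * r) ≤ (W.card : ℝ) * (a * (2 * r) + c) := by
    refine (sum_le_sum up).trans (le_of_eq ?_)
    rw [sum_const, nsmul_eq_mul]
  have h2 := klu_avg hW h (2 * r)
  have h3 : ∑ ω ∈ W, kl (P ω) (avg W P) (2 * r) ≤ 4 * ε * r * (W.card : ℝ) := by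
    have h4 := mul_le_mul_of_nonneg_left lw hn.le
    nlinarith
  by_contra hcon
  push Not at hcon
  have hS : ∀ j, r ≤ j → j < 2 * r → ∑ ω ∈ W, kl (P ω) (avg W P) j + 4 * ε * (W.card : ℝ) <
      ∑ ω ∈ W, kl (P ω) (avg W P) (j + 1) := by
    intro j hj1 hj2
    have h5 := hcon j hj1 hj2
    have h6 : ∑ ω ∈ W, kl (P ω) (avg W P) (j + 1) - ∑ ω ∈ W, kl (P ω) (avg W P) j =
        ∑ x, ∑ y : Fin j → Y, ∑ ω ∈ W, dl (P ω) (avg W P) j x y := by
      rw [← sum_sub_distrib, sum_congr rfl fun ω _ => kl_inc (P ω) (avg W P) j, sum_comm]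
      refine sum_congr rfl fun x _ => ?_
      rw [sum_comm]
    linarith
  have hT : ∀ i : ℕ, i ≤ r → (i : ℝ) * (4 * ε * (W.card : ℝ)) ≤
      ∑ ω ∈ W, kl (P ω) (avg W P) (r + i) := by
    intro i
    induction i with
    | zero =>
      intro _
      rw [Nat.cast_zero, zero_mul]
      exact sum_nonneg fun ω hω => kl_avg_nonneg hW h hω _
    | succ i ih =>
      intro hi
      have h5 := ih (by omega)
      have h6 := hS (r + i) (by omega) (by omega)
      rw [← add_assoc]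
      push_cast
      linarith
  obtain ⟨i, rfl⟩ : ∃ i, r = i + 1 := ⟨r - 1, by omega⟩
  have h5 := hT i (by omega)
  have h6 := hS (i + 1 + i) (by omega) (by omega)
  rw [show i + 1 + i + 1 = 2 * (i + 1) by ring] at h6
  push_cast at h3
  linarith

end Pool.Agent.NSE32
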