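import Pool.Agent.NSE32.Heavy

/-!
# NSE32/Greedy: a common reservoir for finitely many mixtures

Proof by `Finset.induction_on U`: `U = ∅`: `R = Z`. `insert ω U`: `R₁` for `U`; apply `heavy` to `P ω`,
`R₁ ⊆ Z` (the hypothesis `hz` holds on the subset), get `S`; `R = R₁ ∩ S`: `HS.mono` for the elements of
`U` (`R ⊆ R₁`) and for `ω` (`R ⊆ S`), and `g(R) ≥ lam K * g(R₁) ≥ lam K ^ (U.card + 1) * g(Z)`.
-/

set_option autoImplicit false

namespace Pool.Agent.NSE32

open Finset Pool.Agent.OSM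
open scoped Classical

theorem greedy {X Y Ω : Type} [Fintype Y] [Nonempty Y] {P : Ω → Mx X Y} {K : ℝ} (hK : 1 ≤ K)
    (U : Finset Ω) (hm : ∀ ω ∈ U, (P ω).Ok)
    (hf : ∀ ω ∈ U, ∀ a y, (P ω).f a y ≤ K / (Fintype.card Y : ℝ)) {j : ℕ} {x : X}
    {y : Fin j → Y} (hpos : ∀ ω ∈ U, 0 < (P ω).pr j x y) (Z : Finset Y) (g : Y → ℝ)
    (hg : ∀ z, 0 ≤ g z)
    (hz : ∀ ω ∈ U, ∀ z ∈ Z, (P ω).pr j x y / (200 * (Fintype.card Y : ℝ)) ≤
      (P ω).pr (j + 1) x (Fin.snoc y z)) :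
    ∃ R : Finset Y, R ⊆ Z ∧ (∀ ω ∈ U, HS (P ω) K j x y R) ∧
      lam K ^ U.card * ∑ z ∈ Z, g z ≤ ∑ z ∈ R, g z := by
  induction U using Finset.induction_on with
  | empty =>
    refine ⟨Z, subset_rfl, ?_, ?_⟩
    · intro ω hω
      exact absurd hω (Finset.notMem_empty ω)
    · rw [Finset.card_empty, pow_zero, one_mul]
  | insert ω U hω ih =>
    obtain ⟨R₁, hR₁, hHS, hR⟩ := ih (fun ω' h => hm ω' (Finset.mem_insert_of_mem h))
      (fun ω' h => hf ω' (Finset.mem_insert_of_mem h))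
      (fun ω' h => hpos ω' (Finset.mem_insert_of_mem h))
      (fun ω' h => hz ω' (Finset.mem_insert_of_mem h))
    obtain ⟨S, hS, hSg⟩ := heavy (hm ω (Finset.mem_insert_self ω U)) hK
      (hf ω (Finset.mem_insert_self ω U)) (hpos ω (Finset.mem_insert_self ω U)) R₁ g hg
      (fun z hzR => hz ω (Finset.mem_insert_self ω U) z (hR₁ hzR))
    refine ⟨R₁ ∩ S, Finset.inter_subset_left.trans hR₁, ?_, ?_⟩
    · intro ω' hω'
      rcases Finset.mem_insert.1 hω' with rfl | h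
      · exact hS.mono Finset.inter_subset_right
      · exact (hHS ω' h).mono Finset.inter_subset_left
    · rw [Finset.card_insert_of_notMem hω, pow_succ']
      have hlam : 0 < lam K := by unfold lam; positivity
      calc lam K * lam K ^ U.card * ∑ z ∈ Z, g z
          = lam K * (lam K ^ U.card * ∑ z ∈ Z, g z) := by ring
        _ ≤ lam K * ∑ z ∈ R₁, g z := mul_le_mul_of_nonneg_left hR hlam.le
        _ ≤ _ := hSg

end Pool.Agent.NSE32
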