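import Pool.Agent.NSE32.Defs

/-!
# NSE32/PickO: a typical initial sample

Proof by contradiction: otherwise for all `(x, y)`: `Bad j x y`, or `Q.pr j x y < un X Y j / 10`, or
`40 * ε * n * Q.pr j x y < S x y`. So, with all terms nonnegative,
`Q.pr j x y ≤ (if Bad x y then Q.pr j x y else 0) + un X Y j / 10 + S x y / (40 * ε * n)`. Sum over all
`(x, y)`: `1 ≤ 1/5 + 1/10 + 1/10` (`Mx.pr_sum`; `∑ x, ∑ y, un X Y j = 1` since there are
`card X * card Y ^ j` terms), contradiction.
-/

set_option autoImplicit false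

namespace Pool.Agent.NSE32

open Finset Pool.Agent.OSM
open scoped Classical

theorem pick_o {X Y : Type} [Fintype X] [Fintype Y] [Nonempty X] [Nonempty Y] {Q : Mx X Y}
    (hQ : Q.Ok) {j : ℕ} {ε n : ℝ} (h0 : 0 < ε) (hn : 0 < n) (S : X → (Fin j → Y) → ℝ)
    (hS : ∀ x y, 0 ≤ S x y) (hsum : ∑ x, ∑ y, S x y ≤ 4 * ε * n) (Bad : X → (Fin j → Y) → Prop)
    (hBad : ∑ x, ∑ y : Fin j → Y, (if Bad x y then Q.pr j x y else 0) ≤ 1 / 5) :
    ∃ x y, ¬ Bad x y ∧ un X Y j / 10 ≤ Q.pr j x y ∧ S x y ≤ 40 * ε * n * Q.pr j x y := by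
  by_contra hcon
  push Not at hcon
  have hu0 : 0 < un X Y j := by
    unfold un
    have h1 : 0 < (Fintype.card X : ℝ) := by exact_mod_cast Fintype.card_pos
    have h2 : 0 < (Fintype.card Y : ℝ) := by exact_mod_cast Fintype.card_pos
    positivity
  have hc : 0 < 40 * ε * n := by positivity
  have key : ∀ x (y : Fin j → Y), Q.pr j x y ≤
      (if Bad x y then Q.pr j x y else 0) + un X Y j / 10 + S x y / (40 * ε * n) := by
    intro x y
    have hq := Mx.pr_nonneg hQ j x y
    have hs : 0 ≤ S x y / (40 * ε * n) := div_nonneg (hS x y) hc.le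
    by_cases hb : Bad x y
    · rw [if_pos hb]
      linarith
    · rw [if_neg hb]
      rcases lt_or_ge (Q.pr j x y) (un X Y j / 10) with h | h
      · linarith
      · have h1 := hcon x y hb h
        have h2 : Q.pr j x y < S x y / (40 * ε * n) := by
          rw [lt_div_iff₀ hc]
          linarith
        linarith
  have hsum1 : ∑ x, ∑ y : Fin j → Y, Q.pr j x y ≤
      ∑ x, ∑ y : Fin j → Y, ((if Bad x y then Q.pr j x y else 0) + un X Y j / 10 +
        S x y / (40 * ε * n)) :=
    Finset.sum_le_sum (fun x _ => Finset.sum_le_sum (fun y _ => key x y))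
  rw [Mx.pr_sum hQ] at hsum1
  simp_rw [Finset.sum_add_distrib] at hsum1
  have h3 : ∑ x : X, ∑ y : Fin j → Y, un X Y j / 10 = 1 / 10 := by
    simp only [Finset.sum_const, Finset.card_univ, nsmul_eq_mul, Fintype.card_fun,
      Fintype.card_fin, Nat.cast_pow]
    unfold un
    have h1 : (Fintype.card X : ℝ) ≠ 0 := by exact_mod_cast Fintype.card_ne_zero
    have h2 : (Fintype.card Y : ℝ) ≠ 0 := by exact_mod_cast Fintype.card_ne_zero
    field_simp
  have h4 : ∑ x : X, ∑ y : Fin j → Y, S x y / (40 * ε * n) ≤ 1 / 10 := by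
    simp_rw [← Finset.sum_div]
    rw [div_le_iff₀ hc]
    linarith
  rw [h3] at hsum1
  linarith

end Pool.Agent.NSE32
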