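import Pool.Agent.NSE32.Tal

/-!
# NSE32/TalUse: choice of the shifts and of the functions `om ω`

Proof. Let `f` be from `tal` for `Y`, `n = card V`, `N = card Al`. For `ω : V0 → Al × Bool`,
`s : V → Al`, `β : V → Bool` let `η ω (s, β) v = ((ω (π v)).1 + s v, decide ((ω (π v)).2 = β v))`. For
fixed `ω` the map `(s, β) ↦ η ω (s, β)` from `(V → Al) × (V → Bool)` to `V → Al × Bool` is a bijection
(the second component: `b = decide (c = β)` has the unique solution `β = c` if `b`, `!c` if not), so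
`∑_{(s, β)} ∑ ω, 2 ^ cost (η ω (s, β)) (f ..) = card (V0 → Al × Bool) * ∑ η, 2 ^ cost η (f η)
≤ card (V0 → Al × Bool) * (2 N ^ 2) ^ n / Y.card ≤ 2 ^ D * (2 N) ^ n` by `hD`. There are
`N ^ n * 2 ^ n = (2 N) ^ n` pairs `(s, β)`, so for one of them `∑ ω, 2 ^ cost ≤ 2 ^ D`, hence every
`cost ≤ D` (`Nat.pow_le_pow_iff_right`, casts). Put `om ω = f (η ω (s, β))` and `B` = the union over `ω`
of the sets of the `v` with `(η ω v).2 = true ∧ om ω v ≠ (η ω v).1` (`Finset.card_biUnion_le`).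
-/

set_option autoImplicit false

namespace Pool.Agent.NSE32

open Finset
open scoped Classical

/-- The demands. -/
private noncomputable def tuEta {Al V V0 : Type} [AddCommGroup Al] (π : V → V0)
    (ω : V0 → Al × Bool) (p : (V → Al) × (V → Bool)) (v : V) : Al × Bool :=
  ((ω (π v)).1 + p.1 v, decide ((ω (π v)).2 = p.2 v))

private theorem tuEta_inj {Al V V0 : Type} [AddCommGroup Al] (π : V → V0)
    (ω : V0 → Al × Bool) : Function.Injective (tuEta π ω) := by
  rintro ⟨s, β⟩ ⟨s', β'⟩ h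
  have h1 : ∀ v, s v = s' v ∧ β v = β' v := by
    intro v
    have h2 := congrFun h v
    unfold tuEta at h2
    rw [Prod.mk.injEq] at h2
    obtain ⟨h3, h4⟩ := h2
    refine ⟨add_left_cancel h3, ?_⟩
    rw [decide_eq_decide] at h4
    simp only at h4
    cases hb : β v <;> cases hb' : β' v <;> cases ho : (ω (π v)).2 <;> simp_all
  rw [Prod.mk.injEq]
  exact ⟨funext fun v => (h1 v).1, funext fun v => (h1 v).2⟩

theorem tal_use {Al V V0 : Type} [Fintype Al] [AddCommGroup Al] [Fintype V] [Fintype V0]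
    (π : V → V0) (Y : Finset (V → Al)) (hY : Y.Nonempty) {D : ℕ}
    (hD : (Fintype.card (V0 → Al × Bool) : ℝ) * (Fintype.card (V → Al) : ℝ) ≤
      2 ^ D * (Y.card : ℝ)) :
    ∃ (om : (V0 → Al × Bool) → V → Al) (s : V → Al) (β : V → Bool) (B : Finset V),
      (∀ ω, om ω ∈ Y) ∧ B.card ≤ Fintype.card (V0 → Al × Bool) * D ∧
      ∀ ω v, v ∉ B → (ω (π v)).2 = β v → om ω v = (ω (π v)).1 + s v := by
  obtain ⟨f, hfY, hf⟩ := tal Y hY
  obtain ⟨y0, hy0⟩ := hY
  have hYp : (0 : ℝ) < Y.card := by exact_mod_cast card_pos.2 ⟨y0, hy0⟩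
  set F : (V → Al) × (V → Bool) → ℝ := fun p =>
    ∑ ω : V0 → Al × Bool, (2 : ℝ) ^ cost (tuEta π ω p) (f (tuEta π ω p)) with hF
  have hsum : ∑ p, F p ≤ ∑ _p : (V → Al) × (V → Bool), (2 : ℝ) ^ D := by
    have h1 : ∑ p, F p ≤ (Fintype.card (V0 → Al × Bool) : ℝ) *
        ∑ η, (2 : ℝ) ^ cost η (f η) := by
      rw [hF]
      simp only
      rw [sum_comm]
      have h2 : ∀ ω : V0 → Al × Bool,
          ∑ p : (V → Al) × (V → Bool), (2 : ℝ) ^ cost (tuEta π ω p) (f (tuEta π ω p)) ≤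
            ∑ η, (2 : ℝ) ^ cost η (f η) := by
        intro ω
        calc _ = ∑ η ∈ (univ : Finset ((V → Al) × (V → Bool))).map
              ⟨tuEta π ω, tuEta_inj π ω⟩, (2 : ℝ) ^ cost η (f η) :=
              (sum_map _ ⟨tuEta π ω, tuEta_inj π ω⟩ (fun η => (2 : ℝ) ^ cost η (f η))).symm
          _ ≤ _ := sum_le_sum_of_subset_of_nonneg (subset_univ _) fun _ _ _ => by positivity
      calc _ ≤ ∑ _ω : V0 → Al × Bool, ∑ η, (2 : ℝ) ^ cost η (f η) :=
            sum_le_sum fun ω _ => h2 ω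
        _ = _ := by rw [sum_const, nsmul_eq_mul, Finset.card_univ]
    rw [sum_const, nsmul_eq_mul, Finset.card_univ]
    have h3 : (Fintype.card ((V → Al) × (V → Bool)) : ℝ) = (2 * (Fintype.card Al : ℝ)) ^
        Fintype.card V := by
      rw [Fintype.card_prod, Fintype.card_fun, Fintype.card_fun, Fintype.card_bool]
      push_cast
      rw [mul_pow]
      ring
    have h4 : (Fintype.card (V → Al) : ℝ) = (Fintype.card Al : ℝ) ^ Fintype.card V := by
      rw [Fintype.card_fun]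
      push_cast
      ring
    rw [h3]
    rw [h4] at hD
    have h5 : (Y.card : ℝ) * ∑ p, F p ≤
        (Y.card : ℝ) * ((2 * (Fintype.card Al : ℝ)) ^ Fintype.card V * 2 ^ D) := by
      calc (Y.card : ℝ) * ∑ p, F p ≤ (Y.card : ℝ) * ((Fintype.card (V0 → Al × Bool) : ℝ) *
            ∑ η, (2 : ℝ) ^ cost η (f η)) := mul_le_mul_of_nonneg_left h1 hYp.le
        _ = (Fintype.card (V0 → Al × Bool) : ℝ) *
            ((Y.card : ℝ) * ∑ η, (2 : ℝ) ^ cost η (f η)) := by ring
        _ ≤ (Fintype.card (V0 → Al × Bool) : ℝ) *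
            (2 * (Fintype.card Al : ℝ) ^ 2) ^ Fintype.card V :=
            mul_le_mul_of_nonneg_left hf (by positivity)
        _ = (Fintype.card (V0 → Al × Bool) : ℝ) * (Fintype.card Al : ℝ) ^ Fintype.card V *
            (2 * (Fintype.card Al : ℝ)) ^ Fintype.card V := by
            have : (2 * (Fintype.card Al : ℝ) ^ 2) = Fintype.card Al * (2 * Fintype.card Al) := by
              ring
            rw [this, mul_pow]
            ring
        _ ≤ 2 ^ D * (Y.card : ℝ) * (2 * (Fintype.card Al : ℝ)) ^ Fintype.card V :=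
            mul_le_mul_of_nonneg_right hD (by positivity)
        _ = _ := by ring
    exact le_of_mul_le_mul_left h5 hYp
  obtain ⟨p, -, hp⟩ := exists_le_of_sum_le (s := univ) ⟨(y0, fun _ => true), mem_univ _⟩ hsum
  have hcost : ∀ ω, cost (tuEta π ω p) (f (tuEta π ω p)) ≤ D := by
    intro ω
    have h1 : (2 : ℝ) ^ cost (tuEta π ω p) (f (tuEta π ω p)) ≤ 2 ^ D :=
      (single_le_sum (f := fun ω => (2 : ℝ) ^ cost (tuEta π ω p) (f (tuEta π ω p)))
        (fun _ _ => by positivity) (mem_univ ω)).trans hp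
    exact (pow_le_pow_iff_right₀ (by norm_num)).1 h1
  refine ⟨fun ω => f (tuEta π ω p), p.1, p.2, univ.biUnion fun ω => univ.filter fun v =>
    (tuEta π ω p v).2 = true ∧ f (tuEta π ω p) v ≠ (tuEta π ω p v).1, fun ω => hfY _, ?_, ?_⟩
  · refine card_biUnion_le.trans ?_
    calc _ ≤ ∑ _ω : V0 → Al × Bool, D := sum_le_sum fun ω _ => hcost ω
      _ = _ := by rw [sum_const, smul_eq_mul, Finset.card_univ]
  · intro ω v hv hb
    by_contra hne
    refine hv (mem_biUnion.2 ⟨ω, mem_univ _, mem_filter.2 ⟨mem_univ _, ?_, hne⟩⟩)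
    unfold tuEta
    simp [hb]

end Pool.Agent.NSE32
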