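import Pool.Agent.NSE32.Avg

/-!
# NSE32/YSet: many functions are compatible with a typical initial sample

Proof. Let `A = (avg W P).pr j x y > 0`, `n = W.card`, `Wg` the filtered set. By `pr_avg`
`∑ ω ∈ W, (P ω).pr j x y = n * A`. For `ω ∈ W` outside `Wg`: `(P ω).pr j x y < A / 4` or
`(P ω).pr j x y < dl .. / (160 ε)`, in both cases `(P ω).pr j x y ≤ A / 4 + dl .. / (160 * ε)`
(`hdl`: the `dl` are nonnegative). So `∑_{W \ Wg} ≤ n * A / 4 + 40 ε n A / (160 ε) = n * A / 2` and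
`∑_{Wg} ≥ n * A / 2`. Each term is at most `K' / card X * (K / card Y) ^ j = K' * K ^ j * un X Y j
≤ 10 * K' * K ^ j * A` (`Mx.pr_le`, `Bd`). So `n * A / 2 ≤ Wg.card * 10 * K' * K ^ j * A`.
-/

set_option autoImplicit false

namespace Pool.Agent.NSE32

open Finset Pool.Agent.OSM
open scoped Classical

theorem yset {X Y Ω : Type} [Fintype X] [Fintype Y] [Nonempty X] [Nonempty Y] {W : Finset Ω}
    (hW : W.Nonempty) {P : Ω → Mx X Y} {K K' : ℝ} (hK : 1 ≤ K) (hK' : 1 ≤ K')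
    (h : ∀ ω ∈ W, Bd K K' (P ω)) {ε : ℝ} (h0 : 0 < ε) {j : ℕ} {x : X} {y : Fin j → Y}
    (hdl : ∀ ω ∈ W, 0 ≤ dl (P ω) (avg W P) j x y)
    (h1 : un X Y j / 10 ≤ (avg W P).pr j x y)
    (h2 : ∑ ω ∈ W, dl (P ω) (avg W P) j x y ≤ 40 * ε * (W.card : ℝ) * (avg W P).pr j x y) :
    (W.card : ℝ) ≤ 20 * K' * K ^ j * ((W.filter fun ω =>
      (avg W P).pr j x y / 4 ≤ (P ω).pr j x y ∧
        dl (P ω) (avg W P) j x y ≤ 160 * ε * (P ω).pr j x y).card : ℝ) := by
  have hXpos : (0 : ℝ) < Fintype.card X := by exact_mod_cast Fintype.card_pos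
  have hYpos : (0 : ℝ) < Fintype.card Y := by exact_mod_cast Fintype.card_pos
  have hnpos : (0 : ℝ) < W.card := by exact_mod_cast hW.card_pos
  have hun : 0 < un X Y j := by unfold un; positivity
  have hsum : ∑ ω ∈ W, (P ω).pr j x y = (W.card : ℝ) * (avg W P).pr j x y := by
    rw [pr_avg]; field_simp
  set A : ℝ := (avg W P).pr j x y with hA
  have hApos : 0 < A := lt_of_lt_of_le (by positivity) h1
  set n : ℝ := (W.card : ℝ) with hn
  -- the two parts of the sum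
  have hsplit := Finset.sum_filter_add_sum_filter_not W (fun ω =>
      A / 4 ≤ (P ω).pr j x y ∧ dl (P ω) (avg W P) j x y ≤ 160 * ε * (P ω).pr j x y)
      (fun ω => (P ω).pr j x y)
  have hgood : ∑ ω ∈ W.filter (fun ω =>
      A / 4 ≤ (P ω).pr j x y ∧ dl (P ω) (avg W P) j x y ≤ 160 * ε * (P ω).pr j x y),
        (P ω).pr j x y ≤
      ((W.filter fun ω => A / 4 ≤ (P ω).pr j x y ∧
        dl (P ω) (avg W P) j x y ≤ 160 * ε * (P ω).pr j x y).card : ℝ) *
        (10 * K' * K ^ j * A) := by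
    rw [← nsmul_eq_mul]
    refine Finset.sum_le_card_nsmul _ _ _ fun ω hω => ?_
    have hωW : ω ∈ W := (Finset.mem_filter.1 hω).1
    have hb := h ω hωW
    have h3 := Mx.pr_le hb.ok hb.f hb.x j x y
    have h4 : K' / (Fintype.card X : ℝ) * (K / (Fintype.card Y : ℝ)) ^ j
        = K' * K ^ j * un X Y j := by
      unfold un; rw [div_pow]; field_simp
    have h5 : un X Y j ≤ 10 * A := by linarith
    have h6 : 0 ≤ K' * K ^ j := by positivity
    calc (P ω).pr j x y ≤ K' * K ^ j * un X Y j := by rw [← h4]; exact h3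
      _ ≤ K' * K ^ j * (10 * A) := mul_le_mul_of_nonneg_left h5 h6
      _ = 10 * K' * K ^ j * A := by ring
  have hbad : ∑ ω ∈ W.filter (fun ω =>
      ¬ (A / 4 ≤ (P ω).pr j x y ∧ dl (P ω) (avg W P) j x y ≤ 160 * ε * (P ω).pr j x y)),
        (P ω).pr j x y ≤ n * A / 2 := by
    have h3 : ∑ ω ∈ W.filter (fun ω =>
        ¬ (A / 4 ≤ (P ω).pr j x y ∧ dl (P ω) (avg W P) j x y ≤ 160 * ε * (P ω).pr j x y)),
        (P ω).pr j x y ≤ ∑ ω ∈ W.filter (fun ω =>
        ¬ (A / 4 ≤ (P ω).pr j x y ∧ dl (P ω) (avg W P) j x y ≤ 160 * ε * (P ω).pr j x y)),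
        (A / 4 + dl (P ω) (avg W P) j x y / (160 * ε)) := by
      refine Finset.sum_le_sum fun ω hω => ?_
      obtain ⟨hωW, hc⟩ := Finset.mem_filter.1 hω
      have hd0 := hdl ω hωW
      by_cases hc1 : A / 4 ≤ (P ω).pr j x y
      · have hc2 : 160 * ε * (P ω).pr j x y < dl (P ω) (avg W P) j x y := by
          by_contra hc3
          exact hc ⟨hc1, not_lt.1 hc3⟩
        have h7 : (P ω).pr j x y ≤ dl (P ω) (avg W P) j x y / (160 * ε) := by
          rw [le_div_iff₀ (by positivity)]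
          linarith
        linarith
      · have h7 : 0 ≤ dl (P ω) (avg W P) j x y / (160 * ε) := by positivity
        linarith [not_le.1 hc1]
    have h4 : ∑ ω ∈ W.filter (fun ω =>
        ¬ (A / 4 ≤ (P ω).pr j x y ∧ dl (P ω) (avg W P) j x y ≤ 160 * ε * (P ω).pr j x y)),
        (A / 4 + dl (P ω) (avg W P) j x y / (160 * ε)) ≤
        ∑ ω ∈ W, (A / 4 + dl (P ω) (avg W P) j x y / (160 * ε)) := by
      refine Finset.sum_le_sum_of_subset_of_nonneg (Finset.filter_subset _ _) fun ω hω _ => ?_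
      have hd0 := hdl ω hω
      positivity
    have h5 : ∑ ω ∈ W, (A / 4 + dl (P ω) (avg W P) j x y / (160 * ε)) =
        n * (A / 4) + (∑ ω ∈ W, dl (P ω) (avg W P) j x y) / (160 * ε) := by
      rw [Finset.sum_add_distrib, Finset.sum_const, nsmul_eq_mul, Finset.sum_div]
    have h6 : (∑ ω ∈ W, dl (P ω) (avg W P) j x y) / (160 * ε) ≤ n * A / 4 := by
      rw [div_le_iff₀ (by positivity)]
      calc _ ≤ _ := h2
        _ = _ := by ring
    linarith
  have hfin : n * A ≤ n * A / 2 + ((W.filter fun ω => A / 4 ≤ (P ω).pr j x y ∧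
        dl (P ω) (avg W P) j x y ≤ 160 * ε * (P ω).pr j x y).card : ℝ) *
        (10 * K' * K ^ j * A) := by
    rw [← hsum, ← hsplit]
    have := hsum
    linarith
  have h8 : n * A ≤ (20 * K' * K ^ j * ((W.filter fun ω => A / 4 ≤ (P ω).pr j x y ∧
        dl (P ω) (avg W P) j x y ≤ 160 * ε * (P ω).pr j x y).card : ℝ)) * A := by
    nlinarith
  exact le_of_mul_le_mul_right h8 hApos

end Pool.Agent.NSE32
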