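import Mathlib

/-!
# NSE32/ZPig: one set of good indices for many samples

Proof. For `z : Y` let `Bz z = {t : z ∈ bad t}`. Let `Z₁ = {z : card T < 2 * (Bz z).card}`. Then
`∑_{z ∈ Z₁} g z * card T / 2 ≤ ∑ z, g z * (Bz z).card = ∑ t, ∑ z ∈ bad t, g z ≤ card T * G / 80`
(`Finset.sum_comm`), so `∑_{Z₁} g ≤ G / 40`. Let `Z₂ = {z : g z < G / (100 * card Y)}`:
`∑_{Z₂} g ≤ G / 100`. The remaining set `Z₃` has `∑_{Z₃} g ≥ G - G/40 - G/100 ≥ G / 2`. Partition
`Z₃` by `z ↦ univ.filter (z ∉ bad ·) : Finset T` (there are `2 ^ card T` values,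
`Finset.sum_fiberwise`): for one value `Gd` the part `Z` of `Z₃` has `g`-mass at least
`(G / 2) / 2 ^ card T = (1/2) ^ (card T + 1) * G`. It is nonempty (`G > 0`), so
`2 * Gd.card ≥ card T` as its elements are not in `Z₁`.
-/

set_option autoImplicit false

namespace Pool.Agent.NSE32

open Finset
open scoped Classical

theorem zpig {Y T : Type} [Fintype Y] [Nonempty Y] [Fintype T] (g : Y → ℝ) (hg : ∀ z, 0 ≤ g z)
    {G : ℝ} (hG : ∑ z, g z = G) (hG0 : 0 < G) (bad : T → Finset Y)
    (hbad : ∀ t, ∑ z ∈ bad t, g z ≤ G / 80) :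
    ∃ (Gd : Finset T) (Z : Finset Y), Fintype.card T ≤ 2 * Gd.card ∧
      (∀ z ∈ Z, G / (100 * (Fintype.card Y : ℝ)) ≤ g z) ∧ (∀ z ∈ Z, ∀ t ∈ Gd, z ∉ bad t) ∧
      (1 / 2) ^ (Fintype.card T + 1) * G ≤ ∑ z ∈ Z, g z := by
  have hn : 0 < (Fintype.card Y : ℝ) := by exact_mod_cast Fintype.card_pos
  set Bz : Y → Finset T := fun z => univ.filter fun t => z ∈ bad t with hBz
  set Z₁ : Finset Y := univ.filter fun z => Fintype.card T < 2 * (Bz z).card with hZ₁
  set Z₂ : Finset Y := univ.filter fun z => g z < G / (100 * (Fintype.card Y : ℝ)) with hZ₂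
  set Z₃ : Finset Y := univ.filter fun z => z ∉ Z₁ ∧ z ∉ Z₂ with hZ₃
  have h1 : ∑ z, g z * ((Bz z).card : ℝ) ≤ (Fintype.card T : ℝ) * (G / 80) := by
    have h2 : ∀ z, g z * ((Bz z).card : ℝ) = ∑ t : T, if z ∈ bad t then g z else 0 := by
      intro z
      rw [← Finset.sum_filter, Finset.sum_const, nsmul_eq_mul, mul_comm]
    simp_rw [h2]
    rw [Finset.sum_comm]
    calc ∑ t : T, ∑ z : Y, (if z ∈ bad t then g z else 0)
        = ∑ t : T, ∑ z ∈ bad t, g z := by
          refine Finset.sum_congr rfl fun t _ => ?_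
          rw [← Finset.sum_filter]
          congr 1
          ext z
          simp
      _ ≤ ∑ _t : T, G / 80 := Finset.sum_le_sum fun t _ => hbad t
      _ = _ := by rw [Finset.sum_const, nsmul_eq_mul, Finset.card_univ]
  have h2 : ∑ z ∈ Z₁, g z ≤ G / 40 := by
    by_cases hT : Fintype.card T = 0
    · have : Z₁ = ∅ := by
        rw [hZ₁, Finset.filter_eq_empty_iff]
        intro z _
        have h3 : (Bz z).card ≤ Fintype.card T := Finset.card_le_univ _
        omega
      rw [this, Finset.sum_empty]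
      positivity
    · have hT0 : 0 < (Fintype.card T : ℝ) := by
        exact_mod_cast Nat.pos_of_ne_zero hT
      have h3 : (∑ z ∈ Z₁, g z) * (Fintype.card T : ℝ) ≤ 2 * ∑ z, g z * ((Bz z).card : ℝ) := by
        rw [Finset.sum_mul, Finset.mul_sum]
        calc ∑ z ∈ Z₁, g z * (Fintype.card T : ℝ) ≤ ∑ z ∈ Z₁, 2 * (g z * ((Bz z).card : ℝ)) := by
              refine Finset.sum_le_sum fun z hz => ?_
              have h4 : Fintype.card T < 2 * (Bz z).card := (Finset.mem_filter.1 hz).2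
              have h5 : (Fintype.card T : ℝ) ≤ 2 * ((Bz z).card : ℝ) := by exact_mod_cast h4.le
              nlinarith [mul_le_mul_of_nonneg_left h5 (hg z)]
          _ ≤ ∑ z, 2 * (g z * ((Bz z).card : ℝ)) := by
              refine Finset.sum_le_sum_of_subset_of_nonneg (Finset.subset_univ _) fun z _ _ => ?_
              have := hg z
              positivity
      have h4 : (∑ z ∈ Z₁, g z) * (Fintype.card T : ℝ) ≤ (G / 40) * (Fintype.card T : ℝ) := by
        calc _ ≤ _ := h3
          _ ≤ 2 * ((Fintype.card T : ℝ) * (G / 80)) := by linarith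
          _ = _ := by ring
      exact le_of_mul_le_mul_right h4 hT0
  have h3 : ∑ z ∈ Z₂, g z ≤ G / 100 := by
    calc ∑ z ∈ Z₂, g z ≤ ∑ z ∈ Z₂, G / (100 * (Fintype.card Y : ℝ)) :=
          Finset.sum_le_sum fun z hz => (Finset.mem_filter.1 hz).2.le
      _ = (Z₂.card : ℝ) * (G / (100 * (Fintype.card Y : ℝ))) := by
          rw [Finset.sum_const, nsmul_eq_mul]
      _ ≤ (Fintype.card Y : ℝ) * (G / (100 * (Fintype.card Y : ℝ))) := by
          refine mul_le_mul_of_nonneg_right ?_ (by positivity)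
          exact_mod_cast Finset.card_le_univ _
      _ = G / 100 := by field_simp
  have h4 : G / 2 ≤ ∑ z ∈ Z₃, g z := by
    have h5 : ∑ z, g z ≤ ∑ z ∈ Z₁, g z + ∑ z ∈ Z₂, g z + ∑ z ∈ Z₃, g z := by
      have e : ∀ S : Finset Y, ∑ z ∈ S, g z = ∑ z, if z ∈ S then g z else 0 := by
        intro S
        rw [← Finset.sum_filter]
        congr 1
        ext z
        simp
      rw [e Z₁, e Z₂, e Z₃, ← Finset.sum_add_distrib, ← Finset.sum_add_distrib]
      refine Finset.sum_le_sum fun z _ => ?_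
      have h6 := hg z
      have h7 : z ∈ Z₃ ↔ z ∉ Z₁ ∧ z ∉ Z₂ := by
        rw [hZ₃, Finset.mem_filter]
        exact ⟨fun h => h.2, fun h => ⟨Finset.mem_univ _, h⟩⟩
      by_cases ha : z ∈ Z₁ <;> by_cases hb : z ∈ Z₂
      · rw [if_pos ha, if_pos hb, if_neg (fun h => (h7.1 h).1 ha)]
        linarith
      · rw [if_pos ha, if_neg hb, if_neg (fun h => (h7.1 h).1 ha)]
        linarith
      · rw [if_neg ha, if_pos hb, if_neg (fun h => (h7.1 h).2 hb)]
        linarith
      · rw [if_neg ha, if_neg hb, if_pos (h7.2 ⟨ha, hb⟩)]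
        linarith
    rw [hG] at h5
    linarith
  have h5 : ∑ S : Finset T, ∑ z ∈ Z₃ with (univ.filter fun t => z ∉ bad t) = S, g z =
      ∑ z ∈ Z₃, g z := Finset.sum_fiberwise _ _ _
  obtain ⟨Gd, -, hGd⟩ : ∃ S ∈ (univ : Finset (Finset T)), (1 / 2) ^ (Fintype.card T + 1) * G ≤
      ∑ z ∈ Z₃ with (univ.filter fun t => z ∉ bad t) = S, g z := by
    refine Finset.exists_le_of_sum_le Finset.univ_nonempty ?_
    rw [h5, Finset.sum_const, Finset.card_univ, Fintype.card_finset, nsmul_eq_mul]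
    refine le_trans (le_of_eq ?_) h4
    push_cast
    rw [pow_succ, ← mul_assoc, ← mul_assoc, ← mul_pow]
    norm_num
    ring
  refine ⟨Gd, Z₃.filter fun z => (univ.filter fun t => z ∉ bad t) = Gd, ?_, ?_, ?_, hGd⟩
  · have h6 : (Z₃.filter fun z => (univ.filter fun t => z ∉ bad t) = Gd).Nonempty := by
      by_contra hne
      rw [Finset.not_nonempty_iff_eq_empty] at hne
      rw [hne, Finset.sum_empty] at hGd
      have : 0 < (1 / 2 : ℝ) ^ (Fintype.card T + 1) * G := by positivity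
      linarith
    obtain ⟨z, hz⟩ := h6
    rw [Finset.mem_filter] at hz
    obtain ⟨hz3, hzG⟩ := hz
    have hz1 : z ∉ Z₁ := (Finset.mem_filter.1 hz3).2.1
    have h7 : 2 * (Bz z).card ≤ Fintype.card T := by
      by_contra h
      exact hz1 (Finset.mem_filter.2 ⟨Finset.mem_univ _, not_le.1 h⟩)
    have h8 : (Bz z).card + Gd.card = Fintype.card T := by
      rw [← hzG, hBz]
      exact Finset.card_filter_add_card_filter_not (s := univ) (fun t => z ∈ bad t)
    omega
  · intro z hz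
    have hz3 := (Finset.mem_filter.1 hz).1
    have hz2 : z ∉ Z₂ := (Finset.mem_filter.1 hz3).2.2
    by_contra h
    exact hz2 (Finset.mem_filter.2 ⟨Finset.mem_univ _, not_le.1 h⟩)
  · intro z hz t ht
    have hzG := (Finset.mem_filter.1 hz).2
    rw [← hzG] at ht
    exact (Finset.mem_filter.1 ht).2

end Pool.Agent.NSE32
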