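import Pool.Agent.NSE32.ChooseJ
import Pool.Agent.NSE32.PickO
import Pool.Agent.NSE32.YSet
import Pool.Agent.NSE32.TalUse
import Pool.Agent.NSE32.ZPig
import Pool.Agent.NSE32.Greedy

/-!
# NSE32/Core: the entropy theorem

Proof. `W` is nonempty (`V → Al` is nonempty, `hW`). Let `Q = avg W P` (`Bd K K' Q` by `avg_bd`),
`NΩ = card (V0 → Al × Bool) ≥ 1`.
1. `choose_j` gives `j`; `pick_o` with `S x y = ∑ ω ∈ W, dl (P ω) Q j x y` (nonnegative by `dl_nonneg`,
   `pr_ac`), `n = W.card`, `Bad j`, gives `x, y` with `A := Q.pr j x y ≥ un X Y j / 10 > 0`.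
2. `yset`: the set `Wo` (filter) has `W.card ≤ 20 K' K ^ j * Wo.card`, so
   `card (V → Al) ≤ 2 W.card ≤ 40 K' K ^ (2 r) * Wo.card` (`K ≥ 1`), and with `hD`:
   `NΩ * card (V → Al) ≤ 2 ^ D * Wo.card`; `Wo` is nonempty. `tal_use` for `Wo`: `om, s, β, B`.
3. For `ω ∈ Wo`: `(P ω).pr j x y ≥ A / 4 > 0` and by `dl_bad`, `dl ≤ 160 ε (P ω).pr j x y`:
   `∑_{z ∈ zb (P ω) Q j x y} Q.pr (j+1) x (snoc y z) ≤ 7 * 160 * ε * A ≤ 1120 / 100000 * A ≤ A / 80`.
   `zpig` with `T = V0 → Al × Bool`, `g z = Q.pr (j+1) x (snoc y z)`, `G = A` (`Mx.pr_succ`),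
   `bad ω' = zb (P (om ω')) Q j x y`: `Gd, Z`.
4. `greedy` with `U = Gd.image om ⊆ Wo`: for `z ∈ Z`, `ω' ∈ Gd`: `z ∉ zb`, that is
   `(P ω).pr (j+1) x (snoc y z) * A > 1/2 * g z * (P ω).pr j x y ≥ 1/2 * A / (100 card Y) * (P ω).pr j x y`,
   so `hz` holds (divide by `A`). Get `R`; `U.card ≤ NΩ`, `0 < lam K ≤ 1`:
   `∑_{z ∈ R} g z ≥ lam K ^ NΩ * (1/2) ^ (NΩ + 1) * A`. Since `g z ≤ K / card Y * A` (`Mx.pr_snoc` and
   the bound of `f` of `Q`), `dens R = R.card / card Y ≥ rho K NΩ`.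
5. `HS.st` gives the state; `HS.lo` and `(P ω).pr j x y ≥ A / 4 ≥ un X Y j / 40` give the lower bound
   `low X Y K j t`.
-/

set_option autoImplicit false

namespace Pool.Agent.NSE32

open Finset Pool.Agent.OSM
open scoped Classical

/-- Step 3-5: for a typical initial sample and given functions `om`. -/
theorem core_res {X Y Ω T : Type} [Fintype X] [Fintype Y] [Nonempty X] [Nonempty Y] [Fintype T]
    {W : Finset Ω} (hW : W.Nonempty) {P : Ω → Mx X Y} {K K' : ℝ} (hK : 1 ≤ K)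
    (hP : ∀ ω ∈ W, Bd K K' (P ω)) (hQ : Bd K K' (avg W P)) {ε : ℝ} (h0 : 0 < ε)
    (hε : ε ≤ 1 / 100000) {j : ℕ} {x : X} {y : Fin j → Y}
    (hA : un X Y j / 10 ≤ (avg W P).pr j x y) (om : T → Ω) (hom : ∀ t, om t ∈ W)
    (h1 : ∀ t, (avg W P).pr j x y / 4 ≤ (P (om t)).pr j x y)
    (h2 : ∀ t, dl (P (om t)) (avg W P) j x y ≤ 160 * ε * (P (om t)).pr j x y) :
    ∃ (Gd : Finset T) (R : Finset Y), Fintype.card T ≤ 2 * Gd.card ∧
      rho K (Fintype.card T) ≤ OSM.dens R ∧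
      ∀ t ∈ Gd, HS (P (om t)) K j x y R := by
  have hX : (0 : ℝ) < Fintype.card X := by exact_mod_cast Fintype.card_pos
  have hY : (0 : ℝ) < Fintype.card Y := by exact_mod_cast Fintype.card_pos
  set Q := avg W P with hQdef
  set A := Q.pr j x y with hAdef
  have hun : 0 < un X Y j := by unfold un; positivity
  have hA0 : 0 < A := by linarith
  have hOk : ∀ ω ∈ W, (P ω).Ok := fun ω hω => (hP ω hω).ok
  have hac : ∀ t, ∀ (l : ℕ) (x : X) (y : Fin l → Y), Q.pr l x y = 0 → (P (om t)).pr l x y = 0 :=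
    fun t l x y h => pr_ac hW hOk (hom t) l x y h
  set g : Y → ℝ := fun z => Q.pr (j + 1) x (Fin.snoc y z) with hg
  have hg0 : ∀ z, 0 ≤ g z := fun z => Mx.pr_nonneg hQ.ok _ _ _
  have hgs : ∑ z, g z = A := Mx.pr_succ hQ.ok j x y
  have hbad : ∀ t, ∑ z ∈ zb (P (om t)) Q j x y, g z ≤ A / 80 := by
    intro t
    have hp : 0 < (P (om t)).pr j x y := by
      have := h1 t
      linarith
    have h3 := dl_bad (hOk _ (hom t)) hQ.ok (hac t) j x y
    have h4 : 7 * dl (P (om t)) Q j x y * Q.pr j x y ≤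
        7 * (160 * ε * (P (om t)).pr j x y) * A := by
      have := h2 t
      gcongr
    have h5 : (P (om t)).pr j x y * ∑ z ∈ zb (P (om t)) Q j x y, g z ≤
        (P (om t)).pr j x y * (1120 * ε * A) := by
      refine (h3.trans h4).trans (le_of_eq ?_)
      ring
    have h6 := le_of_mul_le_mul_left h5 hp
    refine h6.trans ?_
    nlinarith
  obtain ⟨Gd, Z, hG1, hZ1, hZ2, hZ3⟩ := zpig g hg0 hgs hA0
    (fun t => zb (P (om t)) Q j x y) hbad
  -- the reservoir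
  have hU : ∀ ω ∈ Gd.image om, ∃ t ∈ Gd, om t = ω := fun ω hω => by
    simpa using hω
  obtain ⟨R, hRZ, hR1, hR2⟩ := greedy (P := P) (j := j) (x := x) (y := y) hK (Gd.image om)
    (fun ω hω => by
      obtain ⟨t, _, rfl⟩ := hU ω hω
      exact hOk _ (hom t))
    (fun ω hω a y => by
      obtain ⟨t, _, rfl⟩ := hU ω hω
      exact (hP _ (hom t)).f a y)
    (fun ω hω => by
      obtain ⟨t, _, rfl⟩ := hU ω hω
      have := h1 t
      linarith)
    Z g hg0
    (fun ω hω z hz => by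
      obtain ⟨t, ht, rfl⟩ := hU ω hω
      have h7 := hZ2 z hz t ht
      unfold zb at h7
      rw [mem_filter] at h7
      push Not at h7
      have h8 := h7 (mem_univ z)
      have h9 := hZ1 z hz
      have hp : 0 < (P (om t)).pr j x y := by
        have := h1 t
        linarith
      have h10 : 1 / 2 * (A / (100 * (Fintype.card Y : ℝ))) * (P (om t)).pr j x y ≤
          1 / 2 * g z * (P (om t)).pr j x y := by gcongr
      have h11 : (P (om t)).pr j x y / (200 * (Fintype.card Y : ℝ)) * A ≤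
          (P (om t)).pr (j + 1) x (Fin.snoc y z) * A := by
        refine le_trans (le_of_eq ?_) (h10.trans h8.le)
        field_simp
        ring
      exact le_of_mul_le_mul_right h11 hA0)
  refine ⟨Gd, R, hG1, ?_, fun t ht => hR1 _ (mem_image_of_mem om ht)⟩
  -- the density
  have hl0 : 0 < lam K := by unfold lam; positivity
  have hl1 : lam K ≤ 1 := by
    unfold lam
    rw [div_le_one (by positivity)]
    linarith
  have hc : (Gd.image om).card ≤ Fintype.card T := card_image_le.trans (card_le_univ _)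
  have h12 : lam K ^ Fintype.card T * ((1 / 2) ^ (Fintype.card T + 1) * A) ≤ ∑ z ∈ R, g z := by
    refine le_trans ?_ hR2
    exact mul_le_mul (pow_le_pow_of_le_one hl0.le hl1 hc) hZ3 (by positivity) (by positivity)
  have h13 : ∀ z, g z ≤ K / (Fintype.card Y : ℝ) * A := by
    intro z
    simp only [hg, hAdef]
    rw [Mx.pr_snoc]
    unfold Mx.pr
    rw [mul_sum]
    refine sum_le_sum fun a _ => ?_
    split_ifs
    · have h14 : 0 ≤ Q.w a * ∏ i, Q.f a (y i) :=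
        mul_nonneg (hQ.ok.w_nonneg a) (prod_nonneg fun i _ => hQ.ok.f_nonneg a _)
      calc _ ≤ Q.w a * (∏ i, Q.f a (y i)) * (K / (Fintype.card Y : ℝ)) :=
            mul_le_mul_of_nonneg_left (hQ.f a z) h14
        _ = _ := by ring
    · simp
  have h15 : ∑ z ∈ R, g z ≤ (R.card : ℝ) * (K / (Fintype.card Y : ℝ) * A) := by
    have := sum_le_card_nsmul R g _ fun z _ => h13 z
    rwa [nsmul_eq_mul] at this
  unfold rho OSM.dens
  have h16 := h12.trans h15
  have h17 : lam K ^ Fintype.card T * (1 / 2) ^ (Fintype.card T + 1) * A ≤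
      ((R.card : ℝ) / (Fintype.card Y : ℝ) * K) * A := by
    calc _ = lam K ^ Fintype.card T * ((1 / 2) ^ (Fintype.card T + 1) * A) := by ring
      _ ≤ _ := h16
      _ = _ := by ring
  have h18 := le_of_mul_le_mul_right h17 hA0
  rw [div_le_iff₀ (by linarith)]
  exact h18

theorem core {X Y Al V V0 : Type} [Fintype X] [Fintype Y] [Nonempty X] [Nonempty Y] [Fintype Al]
    [AddCommGroup Al] [Fintype V] [Fintype V0] (π : V → V0) (W : Finset (V → Al))
    (hW : Fintype.card (V → Al) ≤ 2 * W.card) (P : (V → Al) → Mx X Y) {K K' : ℝ} (hK : 1 ≤ K)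
    (hK' : 1 ≤ K') (hP : ∀ ω ∈ W, Bd K K' (P ω)) {a c ε : ℝ} (h0 : 0 < ε) (hε : ε ≤ 1 / 100000)
    {r : ℕ} (hr : 1 ≤ r) (up : ∀ ω ∈ W, klu (P ω) (2 * r) ≤ a * (2 * r) + c)
    (lw : (a - 2 * ε) * (2 * r) + c ≤ klu (avg W P) (2 * r))
    (Bad : (j : ℕ) → X → (Fin j → Y) → Prop)
    (hBad : ∀ j, r ≤ j → j < 2 * r →
      ∑ x, ∑ y : Fin j → Y, (if Bad j x y then (avg W P).pr j x y else 0) ≤ 1 / 5)
    {D : ℕ} (hD : 40 * K' * K ^ (2 * r) * Fintype.card (V0 → Al × Bool) ≤ 2 ^ D) :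
    ∃ (j : ℕ) (x : X) (y : Fin j → Y), r ≤ j ∧ j < 2 * r ∧ ¬ Bad j x y ∧
      Concl π W P K D j x y := by
  have hVA : 0 < Fintype.card (V → Al) := Fintype.card_pos
  have hW0 : 0 < W.card := by omega
  have hWne : W.Nonempty := card_pos.1 hW0
  have hWr : (0 : ℝ) < (W.card : ℝ) := by exact_mod_cast hW0
  have hOk : ∀ ω ∈ W, (P ω).Ok := fun ω hω => (hP ω hω).ok
  have hQ : Bd K K' (avg W P) := avg_bd hWne hP
  obtain ⟨j, hj1, hj2, hj3⟩ := choose_j hWne hOk hr up lw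
  have hdl : ∀ (x : X) (y : Fin j → Y), ∀ ω ∈ W, 0 ≤ dl (P ω) (avg W P) j x y := by
    intro x y ω hω
    exact dl_nonneg (hOk ω hω) hQ.ok (fun l x y h => pr_ac hWne hOk hω l x y h) j x y
  obtain ⟨x, y, hnb, hA, hS⟩ := pick_o hQ.ok h0 hWr
    (fun x y => ∑ ω ∈ W, dl (P ω) (avg W P) j x y) (fun x y => sum_nonneg (hdl x y)) hj3
    (Bad j) (hBad j hj1 hj2)
  refine ⟨j, x, y, hj1, hj2, hnb, ?_⟩
  have hX : (0 : ℝ) < Fintype.card X := by exact_mod_cast Fintype.card_pos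
  have hY : (0 : ℝ) < Fintype.card Y := by exact_mod_cast Fintype.card_pos
  have hun : 0 < un X Y j := by unfold un; positivity
  have hA0 : 0 < (avg W P).pr j x y := by linarith
  have hys := yset hWne hK hK' hP h0 (hdl x y) hA hS
  set Wo := W.filter fun ω => (avg W P).pr j x y / 4 ≤ (P ω).pr j x y ∧
        dl (P ω) (avg W P) j x y ≤ 160 * ε * (P ω).pr j x y with hWo
  have hWoc : (0 : ℝ) < (Wo.card : ℝ) := by
    by_contra hcon
    push Not at hcon
    have h1 : (Wo.card : ℝ) = 0 := le_antisymm hcon (Nat.cast_nonneg _)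
    rw [h1, mul_zero] at hys
    linarith
  have hWone : Wo.Nonempty := by
    rw [← card_pos]
    exact_mod_cast hWoc
  have hKj : K ^ j ≤ K ^ (2 * r) := pow_le_pow_right₀ hK hj2.le
  have hcard : (Fintype.card (V0 → Al × Bool) : ℝ) * (Fintype.card (V → Al) : ℝ) ≤
      2 ^ D * (Wo.card : ℝ) := by
    have h1 : (Fintype.card (V → Al) : ℝ) ≤ 2 * (W.card : ℝ) := by exact_mod_cast hW
    have h2 : (Fintype.card (V → Al) : ℝ) ≤ 40 * K' * K ^ (2 * r) * (Wo.card : ℝ) := by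
      calc _ ≤ 2 * (W.card : ℝ) := h1
        _ ≤ 2 * (20 * K' * K ^ j * (Wo.card : ℝ)) := by linarith
        _ ≤ 2 * (20 * K' * K ^ (2 * r) * (Wo.card : ℝ)) := by gcongr
        _ = _ := by ring
    calc _ ≤ (Fintype.card (V0 → Al × Bool) : ℝ) * (40 * K' * K ^ (2 * r) * (Wo.card : ℝ)) := by
          gcongr
      _ = (40 * K' * K ^ (2 * r) * (Fintype.card (V0 → Al × Bool) : ℝ)) * (Wo.card : ℝ) := by ring
      _ ≤ _ := by gcongr
  obtain ⟨om, s, β, B, ho1, ho2, ho3⟩ := tal_use π Wo hWone hcard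
  have hoW : ∀ ω, om ω ∈ W := fun ω => (mem_filter.1 (ho1 ω)).1
  obtain ⟨Gd, R, hR1, hR2, hR3⟩ := core_res hWne hK hP hQ h0 hε hA om hoW
    (fun ω => (mem_filter.1 (ho1 ω)).2.1) (fun ω => (mem_filter.1 (ho1 ω)).2.2)
  refine ⟨om, s, β, B, Gd, R, hoW, ho2, fun ω v hv hb => ho3 ω v hv hb, hR1, hR2, ?_⟩
  intro ω hω
  have h3 := hR3 ω hω
  refine ⟨h3.st, fun t z hz => le_trans ?_ (h3.lo t z hz)⟩
  unfold low
  have h4 : un X Y j / 40 ≤ (P (om ω)).pr j x y := by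
    have := (mem_filter.1 (ho1 ω)).2.1
    linarith
  have hl0 : 0 < lam K := by unfold lam; positivity
  gcongr

end Pool.Agent.NSE32
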