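import Pool.Agent.OSM.MxKL

/-!
# NSE32: the finite entropy theorem of the `n`-step construction (MP_0b3a63_lc)

Note of helper66 (3 Dec 11:05), step (b)-(e). `Mx`, `Mx.pr`, `klu`, `kl`, `d` are in `OSM`.
`V` = nodes of level `m₁`, `V0` = nodes of level `m₀`, `π : V → V0` the restriction,
`W` = the set `Ω_b'` of functions `V → Al`, `P ω` = the mixtures `P_ω` at one level (`Y` = strings
of that level, `X` = tuples of such strings).
-/

set_option autoImplicit false

namespace Pool.Agent.NSE32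

open Finset Pool.Agent.OSM
open scoped Classical

/-- The average of a finite family of mixtures. -/
noncomputable def avg {X Y Ω : Type} (W : Finset Ω) (P : Ω → Mx X Y) : Mx X Y where
  ι := Σ ω : {ω // ω ∈ W}, (P ω.1).ι
  fin := inferInstance
  w := fun p => (P p.1.1).w p.2 / (W.card : ℝ)
  x := fun p => (P p.1.1).x p.2
  f := fun p => (P p.1.1).f p.2

/-- The uniform probability of a point of `X × Y ^ j`. -/
noncomputable def un (X Y : Type) [Fintype X] [Fintype Y] (j : ℕ) : ℝ :=
  1 / ((Fintype.card X : ℝ) * (Fintype.card Y : ℝ) ^ j)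

/-- The increment of the relative entropy at `(x, y)` by one more sample. -/
noncomputable def dl {X Y : Type} [Fintype Y] (P Q : Mx X Y) (j : ℕ) (x : X) (y : Fin j → Y) : ℝ :=
  (∑ z, d (P.pr (j + 1) x (Fin.snoc y z)) (Q.pr (j + 1) x (Fin.snoc y z))) -
    d (P.pr j x y) (Q.pr j x y)

/-- The bounds of the densities: `f ≤ K / card Y` and law of `x` `≤ K' / card X`. -/
structure Bd {X Y : Type} [Fintype X] [Fintype Y] (K K' : ℝ) (m : Mx X Y) : Prop where
  ok : m.Ok
  f : ∀ a y, m.f a y ≤ K / (Fintype.card Y : ℝ)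
  x : ∀ x, (∑ a, if m.x a = x then m.w a else 0) ≤ K' / (Fintype.card X : ℝ)

/-- The factor lost for each of the functions in the choice of the reservoir. -/
noncomputable def lam (K : ℝ) : ℝ := 1 / (800 * K)

/-- The lower bound of the density of the reservoir, `N` = number of functions `V0 → Al × Bool`. -/
noncomputable def rho (K : ℝ) (N : ℕ) : ℝ := lam K ^ N * (1 / 2) ^ (N + 1) / K

/-- The lower bound of the probabilities of samples from the reservoir. -/
noncomputable def low (X Y : Type) [Fintype X] [Fintype Y] (K : ℝ) (j t : ℕ) : ℝ :=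
  lam K * (1 / 2) ^ (Fintype.card Y) * (un X Y j / 40) * (1 / (400 * (Fintype.card Y : ℝ))) ^ t

/-- The conclusion. -/
structure Concl {X Y Al V V0 : Type} [Fintype X] [Fintype Y] [Fintype Al] [AddCommGroup Al]
    [Fintype V] [Fintype V0] (π : V → V0) (W : Finset (V → Al)) (P : (V → Al) → Mx X Y) (K : ℝ)
    (D : ℕ) (j : ℕ) (x : X) (y : Fin j → Y) : Prop where
  ex : ∃ (om : (V0 → Al × Bool) → V → Al) (s : V → Al) (β : V → Bool) (B : Finset V)
    (Gd : Finset (V0 → Al × Bool)) (R : Finset Y),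
    (∀ ω, om ω ∈ W) ∧ B.card ≤ Fintype.card (V0 → Al × Bool) * D ∧
    (∀ ω v, v ∉ B → (ω (π v)).2 = β v → om ω v = (ω (π v)).1 + s v) ∧
    Fintype.card (V0 → Al × Bool) ≤ 2 * Gd.card ∧
    rho K (Fintype.card (V0 → Al × Bool)) ≤ OSM.dens R ∧
    ∀ ω ∈ Gd, (∃ a, (P (om ω)).x a = x ∧ (∀ i, 0 < (P (om ω)).f a (y i)) ∧
        ∀ z ∈ R, 0 < (P (om ω)).f a z) ∧
      ∀ (t : ℕ) (z : Fin t → Y), (∀ i, z i ∈ R) →
        low X Y K j t ≤ (P (om ω)).pr (j + t) x (Fin.append y z)

end Pool.Agent.NSE32
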