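import Pool.Agent.NSE32.Defs

/-!
# NSE32/Heavy: one step of the choice of the reservoir

Notation: `n = card Y`, `A = m.pr j x y > 0`, for a state `a`: `p a = if m.x a = x then m.w a * ∏ i, m.f a (y i)
else 0 ≥ 0`, so `∑ a, p a = A` (`Mx.pr`) and `∑ a, p a * m.f a z = m.pr (j+1) x (snoc y z)`
(`Mx.pr_snoc`). `Wa a = {z : 1 / (400 n) ≤ m.f a z}`.

`heavy`. For `z ∈ Z`: `A / (200 n) ≤ ∑ a, p a * m.f a z ≤ ∑_{z ∉ Wa a} p a / (400 n) + ∑_{z ∈ Wa a} p a * K / n`
so `∑_{a : z ∈ Wa a} p a ≥ (n / K) * (A / (200 n) - A / (400 n)) = A / (400 K)`. Multiply by `g z` and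
sum over `z ∈ Z`: `∑ a, p a * g(Z ∩ Wa a) ≥ A / (400 K) * g(Z)`. Group the states by `S = Wa a`
(`Finset.sum_fiberwise` over `Finset Y`), `pS S = ∑_{a : Wa a = S} p a`: `∑ S, pS S * g(Z ∩ S) ≥
A / (400 K) * g(Z)`. The `S` with `pS S < lam K * (1/2) ^ n * A` contribute at most
`2 ^ n * lam K * (1/2) ^ n * A * g(Z) = A / (800 K) * g(Z)`. So the others (heavy) contribute at least
`lam K * A * g(Z)`, and their `pS` sum up to at most `A`: some heavy `S` has `g(Z ∩ S) ≥ lam K * g(Z)`
(if there is no heavy `S` with this property then the sum is `<` unless it is empty; treat the case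
`g(Z) = 0` separately: then any heavy `S` will do, and a heavy `S` exists because `∑ S, pS S = A` and there
are `2 ^ n` sets `S`, `lam K < 1`).
The consequences for such an `S` (part `HS`): (1) some state `a` with `Wa a = S` and `p a > 0`
(`lam K * (1/2)^n * A > 0`), so `m.x a = x`, `f a (y i) > 0` for all `i` (product positive, factors
nonnegative), `f a z > 0` for `z ∈ S`. (2) for `z : Fin t → Y` in `S`: by `Mx.pr_append`
`m.pr (j + t) x (append y z) = ∑ a, p a * ∏ m.f a (z i) ≥ ∑_{Wa a = S} p a * (1 / (400 n)) ^ t`.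
-/

set_option autoImplicit false

namespace Pool.Agent.NSE32

open Finset Pool.Agent.OSM
open scoped Classical

/-- `S` is charged by many states of `m` compatible with `(x, y)`. -/
structure HS {X Y : Type} [Fintype Y] (m : Mx X Y) (K : ℝ) (j : ℕ) (x : X) (y : Fin j → Y)
    (S : Finset Y) : Prop where
  st : ∃ a, m.x a = x ∧ (∀ i, 0 < m.f a (y i)) ∧ ∀ z ∈ S, 0 < m.f a z
  lo : ∀ (t : ℕ) (z : Fin t → Y), (∀ i, z i ∈ S) →
    lam K * (1 / 2) ^ (Fintype.card Y) * m.pr j x y * (1 / (400 * (Fintype.card Y : ℝ))) ^ t ≤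
      m.pr (j + t) x (Fin.append y z)

theorem HS.mono {X Y : Type} [Fintype Y] {m : Mx X Y} {K : ℝ} {j : ℕ} {x : X} {y : Fin j → Y}
    {S S' : Finset Y} (h : HS m K j x y S) (hS : S' ⊆ S) : HS m K j x y S' :=
  ⟨let ⟨a, h1, h2, h3⟩ := h.st; ⟨a, h1, h2, fun z hz => h3 z (hS hz)⟩,
    fun t z hz => h.lo t z fun i => hS (hz i)⟩

/-- The mass of the states compatible with `(x, y)`. -/
private noncomputable def pst {X Y : Type} (m : Mx X Y) {j : ℕ} (x : X) (y : Fin j → Y)
    (a : m.ι) : ℝ := if m.x a = x then m.w a * ∏ i, m.f a (y i) else 0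

/-- The set of the points which are charged by the state. -/
private noncomputable def Wst {X Y : Type} [Fintype Y] (m : Mx X Y) (a : m.ι) : Finset Y :=
  univ.filter fun z => 1 / (400 * (Fintype.card Y : ℝ)) ≤ m.f a z

private theorem pst_nonneg {X Y : Type} [Fintype Y] {m : Mx X Y} (hm : m.Ok) {j : ℕ} (x : X)
    (y : Fin j → Y) (a : m.ι) : 0 ≤ pst m x y a := by
  unfold pst
  split_ifs
  · exact mul_nonneg (hm.w_nonneg a) (Finset.prod_nonneg fun i _ => hm.f_nonneg a _)
  · exact le_rfl

private theorem pst_sum {X Y : Type} (m : Mx X Y) {j : ℕ} (x : X) (y : Fin j → Y) :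
    ∑ a, pst m x y a = m.pr j x y := rfl

private theorem pst_snoc {X Y : Type} [Fintype Y] (m : Mx X Y) {j : ℕ} (x : X)
    (y : Fin j → Y) (z : Y) : m.pr (j + 1) x (Fin.snoc y z) = ∑ a, pst m x y a * m.f a z := by
  rw [Mx.pr_snoc]
  refine Finset.sum_congr rfl fun a _ => ?_
  unfold pst
  split_ifs
  · rfl
  · rw [zero_mul]

private theorem pst_append {X Y : Type} [Fintype Y] (m : Mx X Y) {j t : ℕ} (x : X)
    (y : Fin j → Y) (z : Fin t → Y) :
    m.pr (j + t) x (Fin.append y z) = ∑ a, pst m x y a * ∏ i, m.f a (z i) := by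
  rw [Mx.pr_append]
  refine Finset.sum_congr rfl fun a _ => ?_
  unfold pst
  split_ifs
  · rfl
  · rw [zero_mul]

/-- The consequences of a large class. -/
private theorem hs_of_class {X Y : Type} [Fintype Y] [Nonempty Y] {m : Mx X Y} (hm : m.Ok) {K : ℝ}
    (hK : 1 ≤ K) {j : ℕ} {x : X} {y : Fin j → Y} (hpos : 0 < m.pr j x y) (S : Finset Y)
    (hS : lam K * (1 / 2) ^ (Fintype.card Y) * m.pr j x y ≤
      ∑ a, if Wst m a = S then pst m x y a else 0) : HS m K j x y S := by
  have hn : 0 < (Fintype.card Y : ℝ) := by exact_mod_cast Fintype.card_pos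
  have hlam : 0 < lam K := by unfold lam; positivity
  constructor
  · have h1 : 0 < ∑ a, if Wst m a = S then pst m x y a else 0 := by
      refine lt_of_lt_of_le ?_ hS
      positivity
    obtain ⟨a, -, ha⟩ := Finset.exists_ne_zero_of_sum_ne_zero h1.ne'
    have hWa : Wst m a = S := by
      by_contra h
      exact ha (if_neg h)
    rw [if_pos hWa] at ha
    unfold pst at ha
    have hx : m.x a = x := by
      by_contra h
      exact ha (if_neg h)
    rw [if_pos hx] at ha
    refine ⟨a, hx, ?_, ?_⟩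
    · intro i
      have h2 := Finset.prod_ne_zero_iff.1 (right_ne_zero_of_mul ha) i (Finset.mem_univ i)
      exact lt_of_le_of_ne (hm.f_nonneg a _) h2.symm
    · intro z hz
      rw [← hWa] at hz
      have h3 : 1 / (400 * (Fintype.card Y : ℝ)) ≤ m.f a z := (Finset.mem_filter.1 hz).2
      exact lt_of_lt_of_le (by positivity) h3
  · intro t z hz
    rw [pst_append]
    calc _ ≤ (∑ a, if Wst m a = S then pst m x y a else 0) *
          (1 / (400 * (Fintype.card Y : ℝ))) ^ t := mul_le_mul_of_nonneg_right hS (by positivity)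
      _ ≤ _ := by
        rw [Finset.sum_mul]
        refine Finset.sum_le_sum fun a _ => ?_
        have h0 := pst_nonneg hm x y a
        split_ifs with h
        · refine mul_le_mul_of_nonneg_left ?_ h0
          calc (1 / (400 * (Fintype.card Y : ℝ))) ^ t
              = ∏ _i : Fin t, (1 / (400 * (Fintype.card Y : ℝ))) := by
                rw [Finset.prod_const, Finset.card_univ, Fintype.card_fin]
            _ ≤ ∏ i, m.f a (z i) := by
                refine Finset.prod_le_prod (fun i _ => by positivity) fun i _ => ?_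
                have h4 := hz i
                rw [← h] at h4
                exact (Finset.mem_filter.1 h4).2
        · rw [zero_mul]
          exact mul_nonneg h0 (Finset.prod_nonneg fun i _ => hm.f_nonneg a _)

theorem heavy {X Y : Type} [Fintype Y] [Nonempty Y] {m : Mx X Y} (hm : m.Ok) {K : ℝ} (hK : 1 ≤ K)
    (hf : ∀ a y, m.f a y ≤ K / (Fintype.card Y : ℝ)) {j : ℕ} {x : X} {y : Fin j → Y}
    (hpos : 0 < m.pr j x y) (Z : Finset Y) (g : Y → ℝ) (hg : ∀ z, 0 ≤ g z)
    (hz : ∀ z ∈ Z, m.pr j x y / (200 * (Fintype.card Y : ℝ)) ≤ m.pr (j + 1) x (Fin.snoc y z)) :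
    ∃ S : Finset Y, HS m K j x y S ∧ lam K * ∑ z ∈ Z, g z ≤ ∑ z ∈ Z ∩ S, g z := by
  have hn : 0 < (Fintype.card Y : ℝ) := by exact_mod_cast Fintype.card_pos
  have hlam : 0 < lam K := by unfold lam; positivity
  have hlam1 : lam K ≤ 1 := by
    unfold lam
    rw [div_le_one (by positivity)]
    linarith
  set A := m.pr j x y with hA
  set pS : Finset Y → ℝ := fun S => ∑ a, if Wst m a = S then pst m x y a else 0 with hpS
  have hpS0 : ∀ S, 0 ≤ pS S := fun S => Finset.sum_nonneg fun a _ => by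
    split_ifs
    · exact pst_nonneg hm x y a
    · exact le_rfl
  have hpSsum : ∑ S, pS S = A := by
    rw [hpS, hA, ← pst_sum, Finset.sum_comm]
    refine Finset.sum_congr rfl fun a _ => ?_
    rw [Finset.sum_ite_eq]
    simp
  have hcard : (∑ _S : Finset Y, lam K * (1 / 2) ^ (Fintype.card Y) * A) = lam K * A := by
    rw [Finset.sum_const, Finset.card_univ, Fintype.card_finset, nsmul_eq_mul]
    push_cast
    have h1 : (2 : ℝ) ^ (Fintype.card Y) * (1 / 2) ^ (Fintype.card Y) = 1 := by
      rw [← mul_pow]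
      norm_num
    linear_combination lam K * A * h1
  -- the main inequality for a point
  have h1 : ∀ z ∈ Z, A / (400 * K) ≤ ∑ a, if z ∈ Wst m a then pst m x y a else 0 := by
    intro z hzZ
    have h2 := hz z hzZ
    rw [pst_snoc] at h2
    have h3 : ∑ a, pst m x y a * m.f a z ≤
        (K / (Fintype.card Y : ℝ)) * (∑ a, if z ∈ Wst m a then pst m x y a else 0) +
          A / (400 * (Fintype.card Y : ℝ)) := by
      rw [hA, ← pst_sum, Finset.mul_sum, Finset.sum_div, ← Finset.sum_add_distrib]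
      refine Finset.sum_le_sum fun a _ => ?_
      have h0 := pst_nonneg hm x y a
      split_ifs with h
      · have h4 := mul_le_mul_of_nonneg_left (hf a z) h0
        have h5 : 0 ≤ pst m x y a / (400 * (Fintype.card Y : ℝ)) := by positivity
        linarith
      · have h4 : m.f a z ≤ 1 / (400 * (Fintype.card Y : ℝ)) := by
          by_contra hcon
          exact h (Finset.mem_filter.2 ⟨Finset.mem_univ _, (not_le.1 hcon).le⟩)
        have h5 := mul_le_mul_of_nonneg_left h4 h0
        rw [mul_zero, zero_add]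
        calc _ ≤ _ := h5
          _ = _ := by ring
    have h4 : A / (400 * (Fintype.card Y : ℝ)) ≤
        (K / (Fintype.card Y : ℝ)) * (∑ a, if z ∈ Wst m a then pst m x y a else 0) := by
      have h5 : A / (200 * (Fintype.card Y : ℝ)) =
          A / (400 * (Fintype.card Y : ℝ)) + A / (400 * (Fintype.card Y : ℝ)) := by
        field_simp
        norm_num
      linarith
    have h6 : A / (400 * K) = ((Fintype.card Y : ℝ) / K) * (A / (400 * (Fintype.card Y : ℝ))) := by
      field_simp
    rw [h6]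
    calc _ ≤ ((Fintype.card Y : ℝ) / K) * ((K / (Fintype.card Y : ℝ)) *
          (∑ a, if z ∈ Wst m a then pst m x y a else 0)) :=
          mul_le_mul_of_nonneg_left h4 (by positivity)
      _ = _ := by field_simp
  -- summation
  have h2 : A / (400 * K) * ∑ z ∈ Z, g z ≤ ∑ S, pS S * ∑ z ∈ Z ∩ S, g z := by
    have h3 : ∑ S, pS S * ∑ z ∈ Z ∩ S, g z =
        ∑ z ∈ Z, g z * ∑ a, if z ∈ Wst m a then pst m x y a else 0 := by
      have e1 : ∀ S, pS S * ∑ z ∈ Z ∩ S, g z =
          ∑ a, if Wst m a = S then pst m x y a * ∑ z ∈ Z ∩ S, g z else 0 := by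
        intro S
        rw [hpS, Finset.sum_mul]
        refine Finset.sum_congr rfl fun a _ => ?_
        split_ifs
        · rfl
        · rw [zero_mul]
      simp_rw [e1]
      rw [Finset.sum_comm]
      have e2 : ∀ a, (∑ S : Finset Y, if Wst m a = S then pst m x y a * ∑ z ∈ Z ∩ S, g z else 0) =
          ∑ z ∈ Z, if z ∈ Wst m a then g z * pst m x y a else 0 := by
        intro a
        rw [Finset.sum_ite_eq, if_pos (Finset.mem_univ _), Finset.mul_sum, Finset.sum_ite_mem]
        refine Finset.sum_congr rfl fun z _ => mul_comm _ _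
      simp_rw [e2]
      rw [Finset.sum_comm]
      refine Finset.sum_congr rfl fun z _ => ?_
      rw [Finset.mul_sum]
      refine Finset.sum_congr rfl fun a _ => ?_
      split_ifs
      · rfl
      · rw [mul_zero]
    rw [h3, Finset.mul_sum]
    refine Finset.sum_le_sum fun z hzZ => ?_
    rw [mul_comm]
    exact mul_le_mul_of_nonneg_left (h1 z hzZ) (hg z)
  have hgZ : 0 ≤ ∑ z ∈ Z, g z := Finset.sum_nonneg fun z _ => hg z
  have hgS : ∀ S : Finset Y, 0 ≤ ∑ z ∈ Z ∩ S, g z := fun S => Finset.sum_nonneg fun z _ => hg z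
  have hgS' : ∀ S : Finset Y, ∑ z ∈ Z ∩ S, g z ≤ ∑ z ∈ Z, g z := fun S =>
    Finset.sum_le_sum_of_subset_of_nonneg Finset.inter_subset_left fun z _ _ => hg z
  rcases hgZ.eq_or_lt with h0 | h0
  · obtain ⟨S, -, hS⟩ : ∃ S ∈ (univ : Finset (Finset Y)),
        lam K * (1 / 2) ^ (Fintype.card Y) * A ≤ pS S := by
      refine Finset.exists_le_of_sum_le Finset.univ_nonempty ?_
      rw [hcard, hpSsum]
      nlinarith
    refine ⟨S, hs_of_class hm hK hpos S hS, ?_⟩
    rw [← h0, mul_zero]
    exact hgS S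
  · obtain ⟨S, -, hS⟩ : ∃ S ∈ (univ : Finset (Finset Y)),
        pS S * (lam K * ∑ z ∈ Z, g z) +
          (lam K * (1 / 2) ^ (Fintype.card Y) * A) * ∑ z ∈ Z, g z ≤
            pS S * ∑ z ∈ Z ∩ S, g z := by
      refine Finset.exists_le_of_sum_le Finset.univ_nonempty ?_
      rw [Finset.sum_add_distrib, ← Finset.sum_mul, ← Finset.sum_mul, hcard, hpSsum]
      refine le_trans (le_of_eq ?_) h2
      unfold lam
      field_simp
      norm_num
    have hτ : 0 < lam K * (1 / 2) ^ (Fintype.card Y) * A := by positivity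
    have h5 : lam K * (1 / 2) ^ (Fintype.card Y) * A ≤ pS S := by
      have h6 : (lam K * (1 / 2) ^ (Fintype.card Y) * A) * ∑ z ∈ Z, g z ≤
          pS S * ∑ z ∈ Z, g z := by
        have h7 := mul_le_mul_of_nonneg_left (hgS' S) (hpS0 S)
        have h8 : 0 ≤ pS S * (lam K * ∑ z ∈ Z, g z) :=
          mul_nonneg (hpS0 S) (mul_nonneg hlam.le hgZ)
        linarith
      exact le_of_mul_le_mul_right h6 h0
    refine ⟨S, hs_of_class hm hK hpos S h5, ?_⟩
    have h9 : pS S * (lam K * ∑ z ∈ Z, g z) ≤ pS S * ∑ z ∈ Z ∩ S, g z := by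
      have : 0 ≤ (lam K * (1 / 2) ^ (Fintype.card Y) * A) * ∑ z ∈ Z, g z := by positivity
      linarith
    exact le_of_mul_le_mul_left h9 (hτ.trans_le h5)

end Pool.Agent.NSE32
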