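import Pool.Agent.NSE32.Defs

/-!
# NSE32/Sel: a part of the samples is more probable than all of them
-/

set_option autoImplicit false

namespace Pool.Agent.NSE32

open Finset Pool.Agent.OSM
open scoped Classical

theorem f_le_one {X Y : Type} [Fintype Y] {P : Mx X Y} (hP : P.Ok) (a : P.ι) (y : Y) :
    P.f a y ≤ 1 := by
  rw [← hP.f_sum a]
  exact Finset.single_le_sum (f := fun y => P.f a y) (fun z _ => hP.f_nonneg a z)
    (Finset.mem_univ y)

/-- The probability of a selection (with distinct indices) of the samples. -/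
theorem pr_inj {X Y : Type} [Fintype Y] {P : Mx X Y} (hP : P.Ok) {l m : ℕ} (x : X)
    (y : Fin l → Y) (e : Fin m → Fin l) (he : Function.Injective e) :
    P.pr l x y ≤ P.pr m x (fun i => y (e i)) := by
  unfold Mx.pr
  refine Finset.sum_le_sum fun a _ => ?_
  split_ifs with h
  · refine mul_le_mul_of_nonneg_left ?_ (hP.w_nonneg a)
    have h1 : ∏ i, P.f a (y i) = (∏ i ∈ univ.image e, P.f a (y i)) *
        ∏ i ∈ univ \ univ.image e, P.f a (y i) := by
      rw [mul_comm]
      exact (Finset.prod_sdiff (Finset.subset_univ _)).symm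
    have h2 : ∏ i ∈ univ.image e, P.f a (y i) = ∏ i, P.f a (y (e i)) :=
      Finset.prod_image fun i _ j _ h => he h
    rw [h1, h2]
    have h3 : ∏ i ∈ univ \ univ.image e, P.f a (y i) ≤ 1 :=
      Finset.prod_le_one (fun i _ => hP.f_nonneg a _) fun i _ => f_le_one hP a _
    have h4 : 0 ≤ ∏ i, P.f a (y (e i)) := Finset.prod_nonneg fun i _ => hP.f_nonneg a _
    calc _ ≤ (∏ i, P.f a (y (e i))) * 1 := mul_le_mul_of_nonneg_left h3 h4
      _ = _ := mul_one _
  · exact le_rfl

/-- The lower bound `low` decreases in the number of samples. -/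
theorem low_anti {X Y : Type} [Fintype X] [Fintype Y] [Nonempty X] [Nonempty Y] {K : ℝ}
    (hK : 1 ≤ K) {j j' t t' : ℕ} (hj : j ≤ j') (ht : t ≤ t') : low X Y K j' t' ≤ low X Y K j t := by
  have hX : (1 : ℝ) ≤ Fintype.card X := by exact_mod_cast Fintype.card_pos
  have hY : (1 : ℝ) ≤ Fintype.card Y := by exact_mod_cast Fintype.card_pos
  have hl : 0 < lam K := by unfold lam; positivity
  have h1 : un X Y j' ≤ un X Y j := by
    unfold un
    apply one_div_le_one_div_of_le (by positivity)
    gcongr
  have h2 : (1 / (400 * (Fintype.card Y : ℝ))) ^ t' ≤ (1 / (400 * (Fintype.card Y : ℝ))) ^ t := by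
    apply pow_le_pow_of_le_one (by positivity) _ ht
    rw [div_le_one (by positivity)]
    linarith
  have h3 : 0 < un X Y j' := by unfold un; positivity
  have h4 : 0 ≤ (1 / (400 * (Fintype.card Y : ℝ))) ^ t' := by positivity
  unfold low
  have h5 : 0 ≤ lam K * (1 / 2) ^ (Fintype.card Y) * (un X Y j / 40) := by
    have := h3.trans_le h1
    positivity
  calc _ ≤ lam K * (1 / 2) ^ (Fintype.card Y) * (un X Y j / 40) *
        (1 / (400 * (Fintype.card Y : ℝ))) ^ t' := by gcongr
    _ ≤ _ := by gcongr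

theorem low_pos {X Y : Type} [Fintype X] [Fintype Y] [Nonempty X] [Nonempty Y] {K : ℝ}
    (hK : 1 ≤ K) (j t : ℕ) : 0 < low X Y K j t := by
  have hX : (0 : ℝ) < Fintype.card X := by exact_mod_cast Fintype.card_pos
  have hY : (0 : ℝ) < Fintype.card Y := by exact_mod_cast Fintype.card_pos
  unfold low lam un
  positivity

theorem rho_pos {K : ℝ} (hK : 1 ≤ K) (N : ℕ) : 0 < rho K N := by
  unfold rho lam
  positivity

end Pool.Agent.NSE32
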