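import Pool.Agent.OSM.MxKL

/-!
# NSE32/SupAdd: superadditivity of the relative entropy of mixtures

`klu m l` is the relative entropy of the law of `(x, y)`, `y : Fin l → Y`, with respect to the uniform law.
The samples are exchangeable and independent given the state.

* `klu_add`. Write `u l = 1 / (card X * card Y ^ l)`. For fixed `x`, `y : Fin l → Y`, `z : Fin l' → Y`:
  `d (m.pr (l + l') x (append y z)) (u (l + l'))`. Claim:
  `klu m l + klu m l' ≤ klu m (l + l') + klu m 0`.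
  Proof. For a probability function `p` on `X × Y^l × Y^l'` (with `p x y z = m.pr (l+l') x (append y z)`),
  marginals `p₁ x y = m.pr l x y` (`= ∑ z, p x y z`), `p₂ x z = m.pr l' x z` (`= ∑ y, p x y z`, by
  `Mx.pr_append` and `f_sum`, the product of sums), `p₀ x = m.pr 0 x _`. The difference
  `klu (l + l') + klu 0 - klu l - klu l' = ∑ p x y z * log (p x y z * p₀ x / (p₁ x y * p₂ x z))` (all the
  uniform densities cancel; terms with `p x y z = 0` vanish, and `p > 0` implies `p₁, p₂, p₀ > 0`; the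
  linear parts of `d` sum up to `0` since all laws have mass `1`) `≥ 0` because
  `p log (p / q) ≥ p - q` with `q x y z = p₁ x y * p₂ x z / p₀ x`, and `∑ q ≤ ∑ x, p₀ x = 1`.
* `klu_mul`: `n * (klu m l - klu m 0) + klu m 0 ≤ klu m (n * l)` by induction on `n` with `klu_add`.
* `klu_mono'`: `klu m l ≤ klu m l'` for `l ≤ l'` (`klu_add` with `klu m 0 ≤ klu m (l' - l)`, for which
  use the log sum inequality; or directly as `kl_mono` in `OSM/MxKL`).
* `lw_of_low`: with `n = R / rw` (natural division, `n ≥ 1`), `n * rw > R - rw`: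
  `klu m R ≥ klu m (n * rw) ≥ n * (klu m rw - klu m 0) + klu m 0
  ≥ n * ((a - ε) * rw + c - klu m 0) + klu m 0 ≥ n * (a - ε) * rw + c` (as `c - klu m 0 ≥ 0`, `n ≥ 1`).
  If `a ≥ ε` this is `≥ (a - ε) * (R - rw) + c = (a - 2 ε) R + c + ε R - (a - ε) rw ≥ (a - 2 ε) R + c`
  (`hR`). If `a < ε` it is `≥ (a - ε) * R + c ≥ (a - 2 ε) R + c`.
-/

set_option autoImplicit false

namespace Pool.Agent.NSE32

open Finset Pool.Agent.OSM
open scoped Classical

variable {X Y : Type} [Fintype X] [Fintype Y] [Nonempty X] [Nonempty Y] {m : Mx X Y}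

private theorem sa_append {Y : Type} [Fintype Y] (l l' : ℕ) (g : (Fin (l + l') → Y) → ℝ) :
    ∑ y, g y = ∑ y : Fin l → Y, ∑ z : Fin l' → Y, g (Fin.append y z) := by
  rw [← (Fin.appendEquiv (α := Y) l l').sum_comp, Fintype.sum_prod_type]
  rfl

private theorem sa_prod (hm : m.Ok) (l : ℕ) (a : m.ι) :
    ∑ z : Fin l → Y, ∏ i, m.f a (z i) = 1 := by
  have h := Finset.prod_univ_sum (fun _ : Fin l => (univ : Finset Y)) (fun _ y => m.f a y)
  rw [Fintype.piFinset_univ] at h
  rw [← h]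
  exact Finset.prod_eq_one fun i _ => hm.f_sum a

private theorem sa_marg1 (hm : m.Ok) (l l' : ℕ) (x : X) (y : Fin l → Y) :
    ∑ z : Fin l' → Y, m.pr (l + l') x (Fin.append y z) = m.pr l x y := by
  simp_rw [Mx.pr_append]
  rw [Finset.sum_comm]
  unfold Mx.pr
  refine Finset.sum_congr rfl fun a _ => ?_
  split_ifs
  · rw [← Finset.mul_sum, sa_prod hm, mul_one]
  · simp

private theorem sa_marg2 (hm : m.Ok) (l l' : ℕ) (x : X) (z : Fin l' → Y) :
    ∑ y : Fin l → Y, m.pr (l + l') x (Fin.append y z) = m.pr l' x z := by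
  simp_rw [Mx.pr_append]
  rw [Finset.sum_comm]
  unfold Mx.pr
  refine Finset.sum_congr rfl fun a _ => ?_
  split_ifs
  · rw [← Finset.sum_mul, ← Finset.mul_sum, sa_prod hm, mul_one]
  · simp

private theorem sa_marg0 (hm : m.Ok) (l : ℕ) (x : X) :
    ∑ y : Fin l → Y, m.pr l x y = m.pr 0 x Fin.elim0 := by
  unfold Mx.pr
  rw [Finset.sum_comm]
  refine Finset.sum_congr rfl fun a _ => ?_
  split_ifs
  · rw [← Finset.mul_sum, sa_prod hm]
    simp
  · simp

/-- negative entropy -/
private noncomputable def saH (m : Mx X Y) (l : ℕ) : ℝ :=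
  ∑ x, ∑ y : Fin l → Y, m.pr l x y * Real.log (m.pr l x y)

private theorem sa_klu (hm : m.Ok) (l : ℕ) : klu m l = saH m l +
    (Real.log (Fintype.card X) + l * Real.log (Fintype.card Y)) := by
  have hX : 0 < (Fintype.card X : ℝ) := by exact_mod_cast Fintype.card_pos
  have hY : 0 < (Fintype.card Y : ℝ) := by exact_mod_cast Fintype.card_pos
  have hu : 0 < (Fintype.card X : ℝ) * (Fintype.card Y : ℝ) ^ l := by positivity
  have h1 : ∀ x, ∀ y : Fin l → Y,
      d (m.pr l x y) (1 / ((Fintype.card X : ℝ) * (Fintype.card Y : ℝ) ^ l)) =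
        m.pr l x y * Real.log (m.pr l x y) +
        (m.pr l x y * (Real.log (Fintype.card X) + l * Real.log (Fintype.card Y)) +
          (1 / ((Fintype.card X : ℝ) * (Fintype.card Y : ℝ) ^ l) - m.pr l x y)) := by
    intro x y
    unfold d
    rcases (Mx.pr_nonneg hm l x y).eq_or_lt with h | h
    · rw [← h]
      simp
    · rw [div_div_eq_mul_div, div_one, Real.log_mul h.ne' hu.ne',
        Real.log_mul hX.ne' (pow_pos hY l).ne', Real.log_pow]
      ring
  unfold klu saH
  simp_rw [h1]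
  simp only [Finset.sum_add_distrib, Finset.sum_sub_distrib, ← Finset.sum_mul]
  rw [Mx.pr_sum hm l, one_mul]
  have h2 : ∑ _x : X, ∑ _y : Fin l → Y,
      1 / ((Fintype.card X : ℝ) * (Fintype.card Y : ℝ) ^ l) = 1 := by
    simp only [Finset.sum_const, Finset.card_univ, nsmul_eq_mul, Fintype.card_fun,
      Fintype.card_fin, Nat.cast_pow]
    field_simp
  rw [h2]
  ring

private theorem sa_log {a b c e : ℝ} (ha : 0 ≤ a) (hb : 0 ≤ b) (hc : 0 ≤ c) (he : 0 ≤ e)
    (h : 0 < a → 0 < b ∧ 0 < c ∧ 0 < e) :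
    a - b * c / e ≤ a * Real.log a + a * Real.log e - a * Real.log b - a * Real.log c := by
  rcases ha.eq_or_lt with h0 | h0
  · rw [← h0]
    have : 0 ≤ b * c / e := by positivity
    simp only [zero_mul]
    linarith
  · obtain ⟨h1, h2, h3⟩ := h h0
    have h4 := Real.log_le_sub_one_of_pos (show 0 < b * c / (e * a) by positivity)
    rw [Real.log_div (mul_pos h1 h2).ne' (mul_pos h3 h0).ne', Real.log_mul h1.ne' h2.ne',
      Real.log_mul h3.ne' h0.ne'] at h4
    have h5 := mul_le_mul_of_nonneg_left h4 h0.le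
    have h6 : a * (b * c / (e * a) - 1) = b * c / e - a := by
      field_simp
    rw [h6] at h5
    nlinarith [h5]

theorem klu_add (hm : m.Ok) (l l' : ℕ) : klu m l + klu m l' ≤ klu m (l + l') + klu m 0 := by
  have hab : ∀ x (y : Fin l → Y) (z : Fin l' → Y), 0 ≤ m.pr (l + l') x (Fin.append y z) :=
    fun x y z => Mx.pr_nonneg hm _ _ _
  have h1 : ∀ x (y : Fin l → Y) (z : Fin l' → Y),
      m.pr (l + l') x (Fin.append y z) ≤ m.pr l x y := fun x y z => by
    rw [← sa_marg1 hm l l' x y]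
    exact Finset.single_le_sum (f := fun z => m.pr (l + l') x (Fin.append y z))
      (fun z _ => hab x y z) (Finset.mem_univ z)
  have h2 : ∀ x (y : Fin l → Y) (z : Fin l' → Y),
      m.pr (l + l') x (Fin.append y z) ≤ m.pr l' x z := fun x y z => by
    rw [← sa_marg2 hm l l' x z]
    exact Finset.single_le_sum (f := fun y => m.pr (l + l') x (Fin.append y z))
      (fun y _ => hab x y z) (Finset.mem_univ y)
  have h3 : ∀ x (y : Fin l → Y), m.pr l x y ≤ m.pr 0 x Fin.elim0 := fun x y => by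
    rw [← sa_marg0 hm l x]
    exact Finset.single_le_sum (f := fun y => m.pr l x y)
      (fun y _ => Mx.pr_nonneg hm _ _ _) (Finset.mem_univ y)
  have hpt : ∀ x (y : Fin l → Y) (z : Fin l' → Y),
      m.pr (l + l') x (Fin.append y z) - m.pr l x y * m.pr l' x z / m.pr 0 x Fin.elim0 ≤
      m.pr (l + l') x (Fin.append y z) * Real.log (m.pr (l + l') x (Fin.append y z)) +
      m.pr (l + l') x (Fin.append y z) * Real.log (m.pr 0 x Fin.elim0) -
      m.pr (l + l') x (Fin.append y z) * Real.log (m.pr l x y) -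
      m.pr (l + l') x (Fin.append y z) * Real.log (m.pr l' x z) := fun x y z =>
    sa_log (hab x y z) (Mx.pr_nonneg hm _ _ _) (Mx.pr_nonneg hm _ _ _) (Mx.pr_nonneg hm _ _ _)
      fun h => ⟨h.trans_le (h1 x y z), h.trans_le (h2 x y z),
        h.trans_le ((h1 x y z).trans (h3 x y))⟩
  have hsum := Finset.sum_le_sum fun x (_ : x ∈ (univ : Finset X)) =>
    Finset.sum_le_sum fun y (_ : y ∈ (univ : Finset (Fin l → Y))) =>
      Finset.sum_le_sum fun z (_ : z ∈ (univ : Finset (Fin l' → Y))) => hpt x y z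
  simp only [Finset.sum_add_distrib, Finset.sum_sub_distrib] at hsum
  have e1 : ∑ x, ∑ y : Fin l → Y, ∑ z : Fin l' → Y, m.pr (l + l') x (Fin.append y z) *
      Real.log (m.pr (l + l') x (Fin.append y z)) = saH m (l + l') := by
    unfold saH
    exact Finset.sum_congr rfl fun x _ => (sa_append l l' fun y =>
      m.pr (l + l') x y * Real.log (m.pr (l + l') x y)).symm
  have e2 : ∑ x, ∑ y : Fin l → Y, ∑ z : Fin l' → Y, m.pr (l + l') x (Fin.append y z) *
      Real.log (m.pr l x y) = saH m l := by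
    unfold saH
    refine Finset.sum_congr rfl fun x _ => Finset.sum_congr rfl fun y _ => ?_
    rw [← Finset.sum_mul, sa_marg1 hm]
  have e3 : ∑ x, ∑ y : Fin l → Y, ∑ z : Fin l' → Y, m.pr (l + l') x (Fin.append y z) *
      Real.log (m.pr l' x z) = saH m l' := by
    unfold saH
    refine Finset.sum_congr rfl fun x _ => ?_
    rw [Finset.sum_comm]
    refine Finset.sum_congr rfl fun z _ => ?_
    rw [← Finset.sum_mul, sa_marg2 hm]
  have e4 : ∑ x, ∑ y : Fin l → Y, ∑ z : Fin l' → Y, m.pr (l + l') x (Fin.append y z) *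
      Real.log (m.pr 0 x Fin.elim0) = saH m 0 := by
    unfold saH
    refine Finset.sum_congr rfl fun x _ => ?_
    simp only [← Finset.sum_mul]
    have h5 : ∑ y : Fin l → Y, ∑ z : Fin l' → Y, m.pr (l + l') x (Fin.append y z) =
        m.pr 0 x Fin.elim0 := by
      rw [← sa_marg0 hm l x]
      exact Finset.sum_congr rfl fun y _ => sa_marg1 hm l l' x y
    rw [h5, Finset.univ_unique, Finset.sum_singleton]
    rw [show (default : Fin 0 → Y) = Fin.elim0 from Subsingleton.elim _ _]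
  have e5 : ∑ x, ∑ y : Fin l → Y, ∑ z : Fin l' → Y, m.pr (l + l') x (Fin.append y z) = 1 := by
    rw [← Mx.pr_sum hm l]
    exact Finset.sum_congr rfl fun x _ => Finset.sum_congr rfl fun y _ => sa_marg1 hm l l' x y
  have e6 : ∑ x, ∑ y : Fin l → Y, ∑ z : Fin l' → Y,
      m.pr l x y * m.pr l' x z / m.pr 0 x Fin.elim0 ≤ 1 := by
    have h6 : ∀ x, ∑ y : Fin l → Y, ∑ z : Fin l' → Y,
        m.pr l x y * m.pr l' x z / m.pr 0 x Fin.elim0 ≤ ∑ y : Fin l → Y, m.pr l x y := by
      intro x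
      refine Finset.sum_le_sum fun y _ => ?_
      rw [← Finset.sum_div, ← Finset.mul_sum, sa_marg0 hm]
      rcases (Mx.pr_nonneg hm 0 x Fin.elim0).eq_or_lt with h0 | h0
      · rw [← h0, div_zero]
        exact Mx.pr_nonneg hm _ _ _
      · rw [mul_div_assoc, div_self h0.ne', mul_one]
    calc _ ≤ ∑ x, ∑ y : Fin l → Y, m.pr l x y := Finset.sum_le_sum fun x _ => h6 x
      _ = 1 := Mx.pr_sum hm l
  rw [e1, e2, e3, e4, e5] at hsum
  rw [sa_klu hm, sa_klu hm, sa_klu hm, sa_klu hm]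
  push_cast
  linarith

theorem klu_mono' (hm : m.Ok) {l l' : ℕ} (h : l ≤ l') : klu m l ≤ klu m l' := by
  have h0 : ∀ k : ℕ, klu m 0 ≤ klu m k := by
    intro k
    have hX : 0 < (Fintype.card X : ℝ) := by exact_mod_cast Fintype.card_pos
    have hY : 0 < (Fintype.card Y : ℝ) := by exact_mod_cast Fintype.card_pos
    unfold klu
    refine Finset.sum_le_sum fun x _ => ?_
    rw [Finset.univ_unique (α := Fin 0 → Y), Finset.sum_singleton]
    rw [show (default : Fin 0 → Y) = Fin.elim0 from Subsingleton.elim _ _, ← sa_marg0 hm k x]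
    have h1 : 1 / ((Fintype.card X : ℝ) * (Fintype.card Y : ℝ) ^ 0) = ∑ _y : Fin k → Y,
        1 / ((Fintype.card X : ℝ) * (Fintype.card Y : ℝ) ^ k) := by
      simp only [Finset.sum_const, Finset.card_univ, nsmul_eq_mul, Fintype.card_fun,
        Fintype.card_fin, Nat.cast_pow]
      field_simp
    rw [h1]
    have hu : 0 < 1 / ((Fintype.card X : ℝ) * (Fintype.card Y : ℝ) ^ k) := by positivity
    exact d_logsum _ _ _ (fun y _ => Mx.pr_nonneg hm _ _ _) (fun y _ => hu.le)
      (fun y _ h => absurd h hu.ne')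
  obtain ⟨k, rfl⟩ := Nat.exists_eq_add_of_le h
  have h1 := klu_add hm l k
  have h2 := h0 k
  linarith

theorem klu_mul (hm : m.Ok) (n l : ℕ) : (n : ℝ) * (klu m l - klu m 0) + klu m 0 ≤ klu m (n * l) := by
  induction n with
  | zero => simp
  | succ n ih =>
    have h1 := klu_add hm (n * l) l
    rw [← Nat.succ_mul] at h1
    push_cast
    have h2 : klu m ((n + 1) * l) = klu m (n.succ * l) := rfl
    rw [h2]
    nlinarith [h1, ih]

private theorem sa_low (hm : m.Ok) {r R : ℕ} (h1 : 1 ≤ r) (h2 : r ≤ R) {a c ε : ℝ} (hε : 0 < ε)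
    (h0 : klu m 0 ≤ c) (hlow : (a - ε) * r + c ≤ klu m r) (hR : a * r ≤ ε * R) :
    (a - 2 * ε) * R + c ≤ klu m R := by
  obtain ⟨n, hn⟩ : ∃ n, n = R / r := ⟨_, rfl⟩
  have hn1 : 1 ≤ n := by
    rw [hn]
    exact (Nat.one_le_div_iff h1).2 h2
  have hn2 : n * r ≤ R := by
    rw [hn]
    exact Nat.div_mul_le_self R r
  have hn3 : R ≤ n * r + r := by
    have h5 := Nat.lt_mul_div_succ R h1
    rw [← hn] at h5
    nlinarith [h5]
  have h3 := klu_mul hm n r
  have h4 := klu_mono' hm hn2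
  have hn1' : (1 : ℝ) ≤ n := by exact_mod_cast hn1
  have hn2' : (n : ℝ) * r ≤ R := by exact_mod_cast hn2
  have hn3' : (R : ℝ) ≤ n * r + r := by exact_mod_cast hn3
  have hr0 : (0 : ℝ) ≤ r := Nat.cast_nonneg r
  have hR0 : (0 : ℝ) ≤ R := Nat.cast_nonneg R
  have h5 : (n : ℝ) * ((a - ε) * r + c - klu m 0) ≤ n * (klu m r - klu m 0) :=
    mul_le_mul_of_nonneg_left (by linarith) (by linarith)
  have h6 : (n - 1 : ℝ) * 0 ≤ (n - 1) * (c - klu m 0) :=
    mul_le_mul_of_nonneg_left (by linarith) (by linarith)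
  have h7 : (a - ε) * (n * r) + c ≤ klu m R := by
    nlinarith [h3, h4, h5, h6]
  rcases le_or_gt ε a with h8 | h8
  · have h9 : (a - ε) * (R - r) ≤ (a - ε) * (n * r) :=
      mul_le_mul_of_nonneg_left (by linarith) (by linarith)
    nlinarith [h7, h9, mul_nonneg hε.le hr0]
  · have h9 : (ε - a) * (n * r) ≤ (ε - a) * R :=
      mul_le_mul_of_nonneg_left hn2' (by linarith)
    nlinarith [h7, h9, mul_nonneg hε.le hR0]

theorem lw_of_low (hm : m.Ok) {rw R : ℕ} (h1 : 1 ≤ rw) (h2 : rw ≤ R) {a c ε : ℝ} (hε : 0 < ε)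
    (h0 : klu m 0 ≤ c) (hlow : (a - ε) * rw + c ≤ klu m rw) (hR : a * rw ≤ ε * R) :
    (a - 2 * ε) * R + c ≤ klu m R := by
  exact sa_low hm h1 h2 hε h0 hlow hR

end Pool.Agent.NSE32
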