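import Mathlib

/-!
# NSE32/Tal: one-sided Talagrand inequality with alphabets

`η v = (α, b)`: the letter `α` is demanded at `v` if `b = true`, nothing is demanded if `b = false`.

`tal_fin`: induction on `n`. `n = 0`: `Y = univ` has one element, `f` is constant, both sides are `1`.
Step `n → n + 1` (functions on `Fin (n+1)` as `Fin.cons a ω'` or `Fin.snoc`): for `a : Al` let
`Y_a = {ω' : cons a ω' ∈ Y}`, `Y' = ⋃_a Y_a` (nonempty), `N = card Al`, `c_a = Y_a.card ≤ c' = Y'.card`,
`∑ a, c_a = Y.card`. Let `f'` be the function for `Y'`, `f_a` the one for `Y_a` if `Y_a` is nonempty.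
Define `f (cons (α, b) η')`: if `b = false`, an element of `Y` over `f' η'` (any first letter).
If `b = true` and `2 * c_α ≤ c'` (or `Y_α` empty): again an element of `Y` over `f' η'`; the cost is at
most `1 +` the cost of `f' η'`. If `b = true` and `2 * c_α > c'`: `cons α (f_α η')`, cost = cost of
`f_α η'`. Let `E' = ∑ η', 2 ^ cost ≤ (2 N ^ 2) ^ n / c'`. Then
`∑ η, 2 ^ cost ≤ ∑ α, (E' + min-term)`, where the term for `b = true` is at most
`(2 N ^ 2) ^ n / c' * min (2, c' / c_α) ≤ (2 N ^ 2) ^ n / c' * (1 + 2 (1 - c_α / c'))`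
[for `t = 1 - c_α / c' ∈ [0, 1]`: `t ≤ 1/2`: `1 / (1 - t) ≤ 1 + 2 t`; `t ≥ 1/2`: `2 ≤ 1 + 2 t`]. So the
sum is at most `(2 N ^ 2) ^ n / c' * ∑ α, (2 + 2 (1 - c_α / c')) = (2 N^2)^n / c' * (4 N - 2 Y.card / c')`,
and `Y.card * (4 N - 2 Y.card / c') / c' ≤ 2 N ^ 2` because with `s = Y.card / c'` this is
`s (4 N - 2 s) ≤ 2 N ^ 2`, i.e. `2 (N - s) ^ 2 ≥ 0`.

`tal`: transport along `Fintype.equivFin V` (or `Fintype.truncEquivFin`).
-/

set_option autoImplicit false

namespace Pool.Agent.NSE32

open Finset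
open scoped Classical

/-- The number of the places where the demand `η` is not met by `ω`. -/
noncomputable def cost {Al V : Type} [Fintype V] (η : V → Al × Bool) (ω : V → Al) : ℕ :=
  (univ.filter fun v => (η v).2 = true ∧ ω v ≠ (η v).1).card

theorem cost_cons {Al : Type} {n : ℕ} (p : Al × Bool) (η : Fin n → Al × Bool) (a : Al)
    (ω : Fin n → Al) :
    cost (Fin.cons p η : Fin (n + 1) → Al × Bool) (Fin.cons a ω : Fin (n + 1) → Al) =
      (if p.2 = true ∧ a ≠ p.1 then 1 else 0) + cost η ω := by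
  unfold cost
  rw [Finset.card_filter, Finset.card_filter, Fin.sum_univ_succ]
  simp only [Fin.cons_zero, Fin.cons_succ]

theorem sum_cons {A : Type} [Fintype A] {n : ℕ} (F : (Fin (n + 1) → A) → ℝ) :
    ∑ η, F η = ∑ p : A, ∑ η' : Fin n → A, F (Fin.cons p η') := by
  rw [← (Fin.consEquiv (fun _ : Fin (n + 1) => A)).sum_comp F, Fintype.sum_prod_type]
  rfl

theorem tal_fin {Al : Type} [Fintype Al] (n : ℕ) (Y : Finset (Fin n → Al)) (hY : Y.Nonempty) :
    ∃ f : (Fin n → Al × Bool) → Fin n → Al, (∀ η, f η ∈ Y) ∧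
      (Y.card : ℝ) * ∑ η, (2 : ℝ) ^ cost η (f η) ≤ (2 * (Fintype.card Al : ℝ) ^ 2) ^ n := by
  induction n with
  | zero =>
    obtain ⟨y, hy⟩ := hY
    refine ⟨fun _ => y, fun _ => hy, ?_⟩
    have h1 : Y.card ≤ 1 := Finset.card_le_one_of_subsingleton Y
    have h2 : ∀ η : Fin 0 → Al × Bool, cost η y = 0 := by
      intro η
      unfold cost
      simp
    have h3 : ∑ η : Fin 0 → Al × Bool, (2 : ℝ) ^ cost η y = 1 := by
      simp [h2]
    rw [h3, pow_zero, mul_one]
    exact_mod_cast h1
  | succ n ih =>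
    set N : ℝ := (Fintype.card Al : ℝ) with hN
    let Ya : Al → Finset (Fin n → Al) := fun a => univ.filter fun ω => (Fin.cons a ω : Fin (n + 1) → Al) ∈ Y
    let Y' : Finset (Fin n → Al) := univ.filter fun ω => ∃ a, (Fin.cons a ω : Fin (n + 1) → Al) ∈ Y
    have hYa : ∀ a ω, ω ∈ Ya a ↔ (Fin.cons a ω : Fin (n + 1) → Al) ∈ Y := fun a ω => by
      simp [Ya]
    have hY'm : ∀ ω, ω ∈ Y' ↔ ∃ a, (Fin.cons a ω : Fin (n + 1) → Al) ∈ Y := fun ω => by
      simp [Y']
    have hY' : Y'.Nonempty := by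
      obtain ⟨y, hy⟩ := hY
      refine ⟨Fin.tail y, (hY'm _).2 ⟨y 0, ?_⟩⟩
      rwa [Fin.cons_self_tail]
    obtain ⟨f', hf', hE'⟩ := ih Y' hY'
    have hg : ∀ a, ∃ g : (Fin n → Al × Bool) → Fin n → Al, (Ya a).Nonempty →
        (∀ η, g η ∈ Ya a) ∧ ((Ya a).card : ℝ) * ∑ η, (2 : ℝ) ^ cost η (g η) ≤ (2 * N ^ 2) ^ n := by
      intro a
      by_cases h : (Ya a).Nonempty
      · obtain ⟨g, h1, h2⟩ := ih (Ya a) h
        exact ⟨g, fun _ => ⟨h1, h2⟩⟩
      · exact ⟨f', fun h' => absurd h' h⟩
    choose g hg using hg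
    have hl : ∀ ω, ∃ a, ω ∈ Y' → (Fin.cons a ω : Fin (n + 1) → Al) ∈ Y := by
      intro ω
      by_cases h : ω ∈ Y'
      · obtain ⟨a, ha⟩ := (hY'm ω).1 h
        exact ⟨a, fun _ => ha⟩
      · obtain ⟨y, hy⟩ := hY
        exact ⟨y 0, fun h' => absurd h' h⟩
    choose ltr hltr using hl
    have hcY : ∀ a, (Ya a).card ≤ Y'.card := fun a =>
      Finset.card_le_card fun ω hω => (hY'm ω).2 ⟨a, (hYa a ω).1 hω⟩
    have hcard : (Y.card : ℝ) = ∑ a, ((Ya a).card : ℝ) := by
      have h1 : (Y.card : ℝ) = ∑ ω : Fin (n + 1) → Al, if ω ∈ Y then (1 : ℝ) else 0 := by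
        simp
      rw [h1, sum_cons]
      refine Finset.sum_congr rfl fun a _ => ?_
      simp [Ya]
    let f : (Fin (n + 1) → Al × Bool) → Fin (n + 1) → Al := fun η =>
      if (η 0).2 = true ∧ Y'.card < 2 * (Ya (η 0).1).card
      then Fin.cons (η 0).1 (g (η 0).1 (Fin.tail η))
      else Fin.cons (ltr (f' (Fin.tail η))) (f' (Fin.tail η))
    have hfc : ∀ (p : Al × Bool) (η : Fin n → Al × Bool), f (Fin.cons p η) =
        if p.2 = true ∧ Y'.card < 2 * (Ya p.1).card
        then Fin.cons p.1 (g p.1 η) else Fin.cons (ltr (f' η)) (f' η) := by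
      intro p η
      simp only [f, Fin.cons_zero, Fin.tail_cons]
    have hne : ∀ a, Y'.card < 2 * (Ya a).card → (Ya a).Nonempty := by
      intro a ha
      rw [← Finset.card_pos]
      omega
    refine ⟨f, fun η => ?_, ?_⟩
    · rw [← Fin.cons_self_tail η, hfc]
      split_ifs with h
      · exact (hYa _ _).1 ((hg _ (hne _ h.2)).1 _)
      · exact hltr _ (hf' _)
    · rw [sum_cons]
      have hc'0 : (0 : ℝ) < Y'.card := by exact_mod_cast Finset.card_pos.2 hY'
      set c' : ℝ := (Y'.card : ℝ) with hc'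
      set M : ℝ := (2 * N ^ 2) ^ n with hM
      set E' : ℝ := ∑ η, (2 : ℝ) ^ cost η (f' η) with hE'd
      have hE'0 : 0 ≤ E' := Finset.sum_nonneg fun _ _ => by positivity
      have hM0 : 0 ≤ M := by positivity
      have key : ∀ a : Al, c' ^ 2 * (∑ η : Fin n → Al × Bool,
          ((2 : ℝ) ^ cost (Fin.cons (a, true) η : Fin (n + 1) → Al × Bool) (f (Fin.cons (a, true) η)) +
          (2 : ℝ) ^ cost (Fin.cons (a, false) η : Fin (n + 1) → Al × Bool)
            (f (Fin.cons (a, false) η)))) ≤ M * (4 * c' - 2 * (Ya a).card) := by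
        intro a
        rw [Finset.sum_add_distrib, mul_add]
        have hca : ((Ya a).card : ℝ) ≤ c' := by rw [hc']; exact_mod_cast hcY a
        have hca0 : (0 : ℝ) ≤ (Ya a).card := Nat.cast_nonneg _
        have h2 : c' ^ 2 * (∑ η : Fin n → Al × Bool,
            (2 : ℝ) ^ cost (Fin.cons (a, false) η : Fin (n + 1) → Al × Bool)
              (f (Fin.cons (a, false) η))) ≤ M * c' := by
          have h3 : (∑ η : Fin n → Al × Bool,
            (2 : ℝ) ^ cost (Fin.cons (a, false) η : Fin (n + 1) → Al × Bool)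
              (f (Fin.cons (a, false) η))) = E' := by
            refine Finset.sum_congr rfl fun η _ => ?_
            rw [hfc, if_neg (by simp), cost_cons]
            simp
          rw [h3]
          calc c' ^ 2 * E' = c' * E' * c' := by ring
            _ ≤ M * c' := mul_le_mul_of_nonneg_right hE' hc'0.le
        have h1 : c' ^ 2 * (∑ η : Fin n → Al × Bool,
            (2 : ℝ) ^ cost (Fin.cons (a, true) η : Fin (n + 1) → Al × Bool)
              (f (Fin.cons (a, true) η))) ≤ M * (3 * c' - 2 * (Ya a).card) := by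
          by_cases h : Y'.card < 2 * (Ya a).card
          · have hr : c' < 2 * ((Ya a).card : ℝ) := by rw [hc']; exact_mod_cast h
            have h3 : (∑ η : Fin n → Al × Bool,
                (2 : ℝ) ^ cost (Fin.cons (a, true) η : Fin (n + 1) → Al × Bool)
                (f (Fin.cons (a, true) η))) = ∑ η, (2 : ℝ) ^ cost η (g a η) := by
              refine Finset.sum_congr rfl fun η _ => ?_
              rw [hfc, if_pos ⟨rfl, h⟩, cost_cons]
              simp
            rw [h3]
            have h4 := (hg a (hne a h)).2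
            set E : ℝ := ∑ η, (2 : ℝ) ^ cost η (g a η) with hEd
            have hE0 : 0 ≤ E := Finset.sum_nonneg fun _ _ => by positivity
            have h5 : c' ^ 2 ≤ (Ya a).card * (3 * c' - 2 * (Ya a).card) := by nlinarith
            calc c' ^ 2 * E ≤ ((Ya a).card * (3 * c' - 2 * (Ya a).card)) * E :=
                  mul_le_mul_of_nonneg_right h5 hE0
              _ = ((Ya a).card * E) * (3 * c' - 2 * (Ya a).card) := by ring
              _ ≤ M * (3 * c' - 2 * (Ya a).card) :=
                  mul_le_mul_of_nonneg_right h4 (by linarith)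
          · have hr : 2 * ((Ya a).card : ℝ) ≤ c' := by
              rw [hc']
              exact_mod_cast not_lt.1 h
            have h3 : (∑ η : Fin n → Al × Bool,
                (2 : ℝ) ^ cost (Fin.cons (a, true) η : Fin (n + 1) → Al × Bool)
                (f (Fin.cons (a, true) η))) ≤ 2 * E' := by
              rw [hE'd, Finset.mul_sum]
              refine Finset.sum_le_sum fun η _ => ?_
              rw [hfc, if_neg (fun h' => h h'.2), cost_cons, pow_add]
              refine mul_le_mul_of_nonneg_right ?_ (by positivity)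
              split_ifs
              · norm_num
              · norm_num
            calc c' ^ 2 * _ ≤ c' ^ 2 * (2 * E') := mul_le_mul_of_nonneg_left h3 (by positivity)
              _ = (c' * E') * (2 * c') := by ring
              _ ≤ M * (2 * c') := mul_le_mul_of_nonneg_right hE' (by linarith)
              _ ≤ M * (3 * c' - 2 * (Ya a).card) := mul_le_mul_of_nonneg_left (by linarith) hM0
        calc _ ≤ M * (3 * c' - 2 * (Ya a).card) + M * c' := add_le_add h1 h2
          _ = M * (4 * c' - 2 * (Ya a).card) := by ring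
      set S : ℝ := ∑ p : Al × Bool, ∑ η : Fin n → Al × Bool,
        (2 : ℝ) ^ cost (Fin.cons p η : Fin (n + 1) → Al × Bool) (f (Fin.cons p η)) with hS
      have hS0 : 0 ≤ S := Finset.sum_nonneg fun _ _ => Finset.sum_nonneg fun _ _ => by positivity
      have h1 : c' ^ 2 * S ≤ M * (4 * N * c' - 2 * Y.card) := by
        have h2 : S = ∑ a : Al, ∑ η : Fin n → Al × Bool,
          ((2 : ℝ) ^ cost (Fin.cons (a, true) η : Fin (n + 1) → Al × Bool) (f (Fin.cons (a, true) η)) +
          (2 : ℝ) ^ cost (Fin.cons (a, false) η : Fin (n + 1) → Al × Bool)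
            (f (Fin.cons (a, false) η))) := by
          rw [hS, Fintype.sum_prod_type]
          refine Finset.sum_congr rfl fun a _ => ?_
          rw [Fintype.sum_bool, Finset.sum_add_distrib]
        rw [h2, Finset.mul_sum]
        refine (Finset.sum_le_sum fun a _ => key a).trans (le_of_eq ?_)
        rw [← Finset.mul_sum, Finset.sum_sub_distrib, ← Finset.mul_sum, ← Finset.mul_sum, ← hcard,
          Finset.sum_const, Finset.card_univ, nsmul_eq_mul, ← hN]
        ring
      have hy0 : (0 : ℝ) ≤ Y.card := Nat.cast_nonneg _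
      have h2 : (Y.card : ℝ) * (4 * N * c' - 2 * Y.card) ≤ 2 * N ^ 2 * c' ^ 2 := by
        nlinarith [sq_nonneg (N * c' - Y.card)]
      have h3 : c' ^ 2 * ((Y.card : ℝ) * S) ≤ c' ^ 2 * (2 * N ^ 2) ^ (n + 1) := by
        calc c' ^ 2 * ((Y.card : ℝ) * S) = Y.card * (c' ^ 2 * S) := by ring
          _ ≤ Y.card * (M * (4 * N * c' - 2 * Y.card)) := mul_le_mul_of_nonneg_left h1 hy0
          _ = M * (Y.card * (4 * N * c' - 2 * Y.card)) := by ring
          _ ≤ M * (2 * N ^ 2 * c' ^ 2) := mul_le_mul_of_nonneg_left h2 hM0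
          _ = c' ^ 2 * (2 * N ^ 2) ^ (n + 1) := by rw [hM, pow_succ]; ring
      exact le_of_mul_le_mul_left h3 (by positivity)

theorem tal {Al V : Type} [Fintype Al] [Fintype V] (Y : Finset (V → Al)) (hY : Y.Nonempty) :
    ∃ f : (V → Al × Bool) → V → Al, (∀ η, f η ∈ Y) ∧
      (Y.card : ℝ) * ∑ η, (2 : ℝ) ^ cost η (f η) ≤
        (2 * (Fintype.card Al : ℝ) ^ 2) ^ Fintype.card V := by
  let e := Fintype.equivFin V
  let Y2 : Finset (Fin (Fintype.card V) → Al) := univ.filter fun ω => (fun v => ω (e v)) ∈ Y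
  have hY2 : ∀ ω, ω ∈ Y2 ↔ (fun v => ω (e v)) ∈ Y := fun ω => by simp [Y2]
  have hcard : Y2.card = Y.card := by
    refine Finset.card_bij' (fun ω _ v => ω (e v)) (fun ω _ i => ω (e.symm i)) ?_ ?_ ?_ ?_
    · intro ω hω
      exact (hY2 ω).1 hω
    · intro ω hω
      rw [hY2]
      simpa using hω
    · intro ω hω
      simp
    · intro ω hω
      simp
  have hne : Y2.Nonempty := by
    rw [← Finset.card_pos, hcard]
    exact Finset.card_pos.2 hY
  obtain ⟨f, hf, hb⟩ := tal_fin (Fintype.card V) Y2 hne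
  refine ⟨fun η v => f (fun i => η (e.symm i)) (e v), fun η => (hY2 _).1 (hf _), ?_⟩
  have h1 : ∑ η : V → Al × Bool, (2 : ℝ) ^ cost η (fun v => f (fun i => η (e.symm i)) (e v)) =
      ∑ η : Fin (Fintype.card V) → Al × Bool, (2 : ℝ) ^ cost η (f η) := by
    refine Fintype.sum_equiv (e.arrowCongr (Equiv.refl (Al × Bool))) _ _ fun η => ?_
    congr 1
    unfold cost
    refine Finset.card_bij' (fun v _ => e v) (fun i _ => e.symm i) ?_ ?_ ?_ ?_
    · intro v hv
      simp only [mem_filter, mem_univ, true_and] at hv ⊢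
      change (η (e.symm (e v))).2 = true ∧
        f (fun i => η (e.symm i)) (e v) ≠ (η (e.symm (e v))).1
      rw [e.symm_apply_apply]
      exact hv
    · intro i hi
      simp only [mem_filter, mem_univ, true_and] at hi ⊢
      change (η (e.symm i)).2 = true ∧
        f (fun i => η (e.symm i)) i ≠ (η (e.symm i)).1 at hi
      rw [e.apply_symm_apply]
      exact hi
    · intro v _
      simp
    · intro i _
      simp
  rw [h1, ← hcard]
  exact hb

end Pool.Agent.NSE32
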